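import Pool.Agent.W737.Ell.FinType

set_option autoImplicit false

namespace Pool.Agent.W737.Ell

open Filter Topology Set Metric

variable {k : ℕ}

/-- Square the second coordinate. -/
noncomputable def sqc (k : ℕ) (x : E (k + 2)) : E (k + 2) :=
  WithLp.toLp 2 fun i => if i = 1 then (x 1) ^ 2 else x i

theorem norm_sqc (x : E (k + 2)) : ‖sqc k x‖ ^ 2 = rho k x + 1 := by
  have h1 := sum_erase_one (sqc k x)
  have h2 : ∑ i ∈ Finset.univ.erase (1 : Fin (k + 2)), ‖sqc k x i‖ ^ 2 =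
      ∑ i ∈ Finset.univ.erase (1 : Fin (k + 2)), ‖x i‖ ^ 2 := by
    refine Finset.sum_congr rfl fun i hi => ?_
    have := Finset.ne_of_mem_erase hi
    simp [sqc, this]
  have h3 : sqc k x 1 = (x 1) ^ 2 := by simp [sqc]
  rw [h2, h3, norm_pow] at h1
  rw [rho_eq]
  nlinarith

theorem sqc_one (x : E (k + 2)) : sqc k x 1 = (x 1) ^ 2 := by simp [sqc]

theorem sqc_ne (x : E (k + 2)) {i : Fin (k + 2)} (hi : i ≠ 1) : sqc k x i = x i := by
  simp [sqc, hi]

theorem finiteTypeAt_rho (q : E (k + 2)) (hq : rho k q = 0) : FiniteTypeAt (rho k) q := by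
  refine ⟨4, ?_⟩
  intro γ ε hε hγ hγ0 m hm hm1 hmlt
  by_contra hcon
  push Not at hcon
  -- Taylor bound
  have hγs : ContDiffOn ℝ (⊤ : ℕ∞) γ (ball 0 ε) := by
    have h1 : ContDiffOn ℂ (⊤ : ℕ∞) γ (ball 0 ε) := hγ.contDiffOn isOpen_ball
    exact h1.restrict_scalars ℝ
  have hFs : ContDiffOn ℝ (⊤ : ℕ∞) (rho k ∘ γ) (ball 0 ε) := contDiff_rho.comp_contDiffOn hγs
  obtain ⟨C, r, hC, hr, hbd⟩ := order_upper isOpen_ball (mem_ball_self hε) hFs (4 * m) hcon
  -- analytic order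
  have han : AnalyticAt ℂ (fun ζ => γ ζ - q) 0 :=
    (hγ.analyticAt (ball_mem_nhds _ hε)).fun_sub analyticAt_const
  have hid : ∀ j : ℕ, iteratedDeriv (j + 1) (fun ζ => γ ζ - q) 0 = iteratedDeriv (j + 1) γ 0 := by
    intro j
    rw [iteratedDeriv_succ', iteratedDeriv_succ']
    have : deriv (fun ζ => γ ζ - q) = deriv γ := by
      funext ζ
      rw [deriv_sub_const]
    rw [this]
  have hord : analyticOrderAt (fun ζ => γ ζ - q) 0 = m := by
    rw [analyticOrderAt_eq_nat_iff_iteratedDeriv_eq_zero han]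
    constructor
    · intro j hj
      rcases Nat.eq_zero_or_pos j with rfl | hj0
      · simp [hγ0]
      · obtain ⟨i, rfl⟩ : ∃ i, j = i + 1 := ⟨j - 1, by omega⟩
        rw [hid]
        exact hmlt _ hj0 hj
    · obtain ⟨i, rfl⟩ : ∃ i, m = i + 1 := ⟨m - 1, by omega⟩
      rw [hid]
      exact hm1
  obtain ⟨g, hgan, hg0, hgev⟩ := han.analyticOrderAt_eq_natCast.1 hord
  -- a common ball
  obtain ⟨δ1, hδ1, hδ1'⟩ := Metric.eventually_nhds_iff_ball.1 (hgev.and hgan.eventually_analyticAt)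
  obtain ⟨δ, hδ0, hδε, hδr, hδ1δ, hδ1le⟩ : ∃ δ : ℝ, 0 < δ ∧ δ ≤ ε ∧ δ ≤ r ∧ δ ≤ δ1 ∧ δ ≤ 1 := by
    refine ⟨min (min ε r) (min δ1 1), by positivity, ?_, ?_, ?_, ?_⟩
    · exact (min_le_left _ _).trans (min_le_left _ _)
    · exact (min_le_left _ _).trans (min_le_right _ _)
    · exact (min_le_right _ _).trans (min_le_left _ _)
    · exact (min_le_right _ _).trans (min_le_right _ _)
  have hgd : DifferentiableOn ℂ g (ball 0 δ) := fun z hz =>
    ((hδ1' z (ball_subset_ball hδ1δ hz)).2.differentiableAt).differentiableWithinAt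
  have hgi : ∀ i, DifferentiableOn ℂ (fun ζ => g ζ i) (ball 0 δ) := by
    intro i
    exact (differentiableOn_euclidean.1 hgd) i
  have hγi : ∀ i, DifferentiableOn ℂ (fun ζ => γ ζ i) (ball 0 δ) := by
    intro i
    exact (differentiableOn_euclidean.1 (hγ.mono (ball_subset_ball hδε))) i
  have hfac : ∀ ζ ∈ ball (0 : ℂ) δ, ∀ i, γ ζ i = q i + ζ ^ m * g ζ i := by
    intro ζ hζ i
    have h1 := (hδ1' ζ (ball_subset_ball hδ1δ hζ)).1
    have h2 : (γ ζ - q) i = ((ζ - 0) ^ m • g ζ) i := by rw [h1]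
    have h3 : γ ζ i - q i = (ζ - 0) ^ m * g ζ i := h2
    rw [sub_zero] at h3
    linear_combination h3
  have hHd : DifferentiableOn ℂ (fun ζ => sqc k (γ ζ)) (ball 0 δ) := by
    rw [differentiableOn_euclidean]
    intro i
    by_cases hi : i = 1
    · subst hi
      simp only [sqc_one]
      exact (hγi 1).fun_pow 2
    · simp only [sqc_ne _ hi]
      exact hγi i
  have hbound : ∀ K : ℕ, K ≤ 2 * m → ∀ ζ ∈ ball (0 : ℂ) δ,
      ‖sqc k (γ ζ)‖ ^ 2 ≤ ‖sqc k (γ 0)‖ ^ 2 + C * ‖ζ‖ ^ (2 * K + 1) := by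
    intro K hK ζ hζ
    rw [mem_ball_zero_iff] at hζ
    rw [norm_sqc, norm_sqc, hγ0, hq]
    have h1 := hbd ζ (hζ.trans_le hδr)
    have h2 := (abs_le.1 h1).2
    have h3 : ‖ζ‖ ^ (4 * m + 1) ≤ ‖ζ‖ ^ (2 * K + 1) :=
      pow_le_pow_of_le_one (norm_nonneg _) (hζ.le.trans hδ1le) (by omega)
    have h4 : C * ‖ζ‖ ^ (4 * m + 1) ≤ C * ‖ζ‖ ^ (2 * K + 1) := by gcongr
    have h5 : rho k (γ ζ) ≤ C * ‖ζ‖ ^ (4 * m + 1) := h2
    linarith
  have h0m : (0 : ℂ) ^ m = 0 := zero_pow (by omega)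
  by_cases hex : ∃ i : Fin (k + 2), i ≠ 1 ∧ g 0 i ≠ 0
  · obtain ⟨i, hi1, hgi0⟩ := hex
    refine no_order (H := fun ζ => sqc k (γ ζ)) (g := fun ζ => g ζ i) (C := C) hδ0 m i hHd (hgi i) hgi0 ?_
      (hbound m (by omega))
    intro ζ hζ
    simp only
    rw [sqc_ne _ hi1, sqc_ne _ hi1, hfac ζ hζ, hγ0]
    ring
  · push Not at hex
    have hg1 : g 0 1 ≠ 0 := by
      intro h
      apply hg0
      ext i
      by_cases hi : i = 1
      · rw [hi, h]; rfl
      · rw [hex i hi]; rfl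
    by_cases hq1 : q 1 = 0
    · refine no_order (H := fun ζ => sqc k (γ ζ)) (g := fun ζ => (g ζ 1) ^ 2) (C := C) hδ0 (2 * m) 1 hHd
        ((hgi 1).fun_pow 2) (pow_ne_zero _ hg1) ?_ (hbound (2 * m) le_rfl)
      intro ζ hζ
      simp only
      rw [sqc_one, sqc_one, hfac ζ hζ, hγ0, hq1]
      ring
    · refine no_order (H := fun ζ => sqc k (γ ζ)) (g := fun ζ => g ζ 1 * (2 * q 1 + ζ ^ m * g ζ 1))
        (C := C) hδ0 m 1 hHd ?_ ?_ ?_ (hbound m (by omega))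
      · have := hgi 1
        fun_prop
      · simp only
        rw [h0m, zero_mul, add_zero]
        exact mul_ne_zero hg1 (mul_ne_zero (by norm_num) hq1)
      · intro ζ hζ
        simp only
        rw [sqc_one, sqc_one, hfac ζ hζ, hγ0]
        ring

end Pool.Agent.W737.Ell
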