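import Pool.Agent.W737.Ell.Geom

set_option autoImplicit false

namespace Pool.Agent.W737.Ell

open Filter Topology Set Metric

variable {k : ℕ}

theorem second_along {X : Type*} [NormedAddCommGroup X] [NormedSpace ℝ X] {r : X → ℝ} {p v : X}
    {c c' : ℝ → X} (hr : ContDiffAt ℝ 2 r p) (hc0 : c 0 = p)
    (hc : ∀ᶠ t in 𝓝 (0 : ℝ), HasDerivAt c (c' t) t) (hc'0 : c' 0 = v)
    (hc'' : HasDerivAt c' 0 0) (h0 : ∀ᶠ t in 𝓝 (0 : ℝ), r (c t) = 0) :
    fderiv ℝ r p v = 0 ∧ fderiv ℝ (fderiv ℝ r) p v v = 0 := by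
  have hcont : ContinuousAt c 0 := hc.self_of_nhds.continuousAt
  have hd : ∀ᶠ x in 𝓝 p, DifferentiableAt ℝ r x := by
    have h1 := hr.eventually (by simp)
    filter_upwards [h1] with x hx
    exact hx.differentiableAt (by norm_num)
  have hd' : ∀ᶠ t in 𝓝 (0 : ℝ), DifferentiableAt ℝ r (c t) := by
    have h2 : Tendsto c (𝓝 0) (𝓝 p) := by rw [← hc0]; exact hcont
    exact h2.eventually hd
  have h1 : ∀ᶠ t in 𝓝 (0 : ℝ), fderiv ℝ r (c t) (c' t) = 0 := by
    filter_upwards [hd', hc, h0.eventually_nhds] with t ht1 ht2 ht3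
    have h2 : HasDerivAt (r ∘ c) (fderiv ℝ r (c t) (c' t)) t :=
      ht1.hasFDerivAt.comp_hasDerivAt t ht2
    have h3 : HasDerivAt (r ∘ c) 0 t := by
      refine (hasDerivAt_const t (0 : ℝ)).congr_of_eventuallyEq ?_
      filter_upwards [ht3] with s hs
      exact hs
    exact h2.unique h3
  constructor
  · have := h1.self_of_nhds
    rwa [hc0, hc'0] at this
  · have h2 : DifferentiableAt ℝ (fderiv ℝ r) (c 0) := by
      rw [hc0]
      exact (hr.fderiv_right (m := 1) (by norm_num)).differentiableAt (by norm_num)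
    have h3 : HasDerivAt (fun t => fderiv ℝ r (c t)) (fderiv ℝ (fderiv ℝ r) p v) 0 := by
      have := h2.hasFDerivAt.comp_hasDerivAt 0 hc.self_of_nhds
      rwa [hc'0, hc0] at this
    have h4 : HasDerivAt (fun t => fderiv ℝ r (c t) (c' t))
        (fderiv ℝ (fderiv ℝ r) p v (c' 0) + fderiv ℝ r (c 0) 0) 0 := h3.clm_apply hc''
    have h5 : HasDerivAt (fun t => fderiv ℝ r (c t) (c' t)) 0 0 := by
      refine (hasDerivAt_const (0 : ℝ) (0 : ℝ)).congr_of_eventuallyEq ?_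
      filter_upwards [h1] with s hs
      exact hs
    have h6 := h4.unique h5
    rw [hc'0, map_zero, add_zero] at h6
    exact h6

theorem closure_of_rho_zero {x : E (k + 2)} (hx : rho k x = 0) : x ∈ closure (dom k) := by
  have h1 : Tendsto (fun s : ℝ => ((s : ℂ)) • x) (𝓝[<] 1) (𝓝 x) := by
    have : Tendsto (fun s : ℝ => ((s : ℂ)) • x) (𝓝[<] 1) (𝓝 (((1 : ℝ) : ℂ) • x)) := by
      apply Tendsto.mono_left _ nhdsWithin_le_nhds
      apply Continuous.tendsto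
      fun_prop
    simpa using this
  refine mem_closure_of_tendsto h1 ?_
  filter_upwards [Ioo_mem_nhdsLT (show (0 : ℝ) < 1 by norm_num)] with s hs
  change rho k _ < 0
  have e1 : ((s : ℂ) • x) 1 = (s : ℂ) * x 1 := rfl
  rw [rho] at hx ⊢
  rw [e1, norm_smul, norm_mul, Complex.norm_real, Real.norm_of_nonneg hs.1.le]
  have h2 := norm_one_le x
  have h3 : 0 ≤ ‖x 1‖ ^ 4 := by positivity
  have h4 : s ^ 2 < 1 := by nlinarith [hs.1, hs.2]
  have h5 : (s * ‖x‖) ^ 2 - (s * ‖x 1‖) ^ 2 + (s * ‖x 1‖) ^ 4 - 1 =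
      s ^ 2 * (‖x‖ ^ 2 - ‖x 1‖ ^ 2) + s ^ 2 * (s ^ 2 * ‖x 1‖ ^ 4) - 1 := by ring
  rw [h5]
  have h6 : s ^ 2 * ‖x 1‖ ^ 4 ≤ ‖x 1‖ ^ 4 := by nlinarith
  have h7 : 0 ≤ s ^ 2 := sq_nonneg s
  have h8 : s ^ 2 * (s ^ 2 * ‖x 1‖ ^ 4) ≤ s ^ 2 * ‖x 1‖ ^ 4 := by gcongr
  have h9 : s ^ 2 * (‖x‖ ^ 2 - ‖x 1‖ ^ 2 + ‖x 1‖ ^ 4) = s ^ 2 := by
    have : ‖x‖ ^ 2 - ‖x 1‖ ^ 2 + ‖x 1‖ ^ 4 = 1 := by linarith
    rw [this, mul_one]
  nlinarith

theorem defining_zero {U : Set (E (k + 2))} {r : E (k + 2) → ℝ} {p : E (k + 2)}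
    (h : IsLocalDefining (dom k) p U r) {x : E (k + 2)} (hxU : x ∈ U) (hx : rho k x = 0) :
    r x = 0 := by
  obtain ⟨_, hU, _, hs, _, hD⟩ := h
  have h1 : ¬ r x < 0 := by
    intro hlt
    have h2 : x ∈ dom k ∩ U := by rw [hD]; exact ⟨hxU, hlt⟩
    have h3 : rho k x < 0 := h2.1
    linarith
  have h2 : r x ≤ 0 := by
    have h3 : ContinuousAt r x := (hs.continuousOn).continuousAt (hU.mem_nhds hxU)
    by_contra hcon
    push Not at hcon
    have h4 : ∀ᶠ y in 𝓝 x, 0 < r y ∧ y ∈ U :=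
      (h3.eventually (lt_mem_nhds hcon)).and (hU.mem_nhds hxU)
    obtain ⟨y, ⟨hy1, hy2⟩, hy3⟩ := (mem_closure_iff_nhds.1 (closure_of_rho_zero hx) _ h4)
    have h5 : y ∈ {z | z ∈ U ∧ r z < 0} := by rw [← hD]; exact ⟨hy3, hy2⟩
    exact lt_asymm hy1 h5.2
  linarith

theorem hess_zero {U : Set (E (k + 2))} {r : E (k + 2) → ℝ}
    (h : IsLocalDefining (dom k) (pt k) U r) {c : ℂ} (hc : ‖c‖ = 1) :
    fderiv ℝ r (pt k) (EuclideanSpace.single 1 c) = 0 ∧
    fderiv ℝ (fderiv ℝ r) (pt k) (EuclideanSpace.single 1 c) (EuclideanSpace.single 1 c) = 0 := by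
  set v : E (k + 2) := EuclideanSpace.single 1 c with hv
  have hcd : ContDiffAt ℝ 2 r (pt k) := by
    have h1 : ContDiffAt ℝ (⊤ : ℕ∞) r (pt k) := (h.2.2.2.1).contDiffAt (h.2.1.mem_nhds h.2.2.1)
    refine h1.of_le ?_
    have : (((2 : ℕ) : ℕ∞) : WithTop ℕ∞) ≤ ((⊤ : ℕ∞) : WithTop ℕ∞) := WithTop.coe_le_coe.2 le_top
    simpa using this
  let α : ℝ → ℝ := fun t => Real.sqrt (1 - t ^ 4)
  let α' : ℝ → ℝ := fun t => (-(4 * t ^ 3)) / (2 * Real.sqrt (1 - t ^ 4))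
  have hαd : ∀ t : ℝ, 1 - t ^ 4 ≠ 0 → HasDerivAt α (α' t) t := by
    intro t ht
    have h1 : HasDerivAt (fun t : ℝ => 1 - t ^ 4) (-(4 * t ^ 3)) t := by
      have := (hasDerivAt_pow 4 t).const_sub 1
      simpa using this
    exact h1.sqrt ht
  have hev : ∀ᶠ t in 𝓝 (0 : ℝ), 0 < 1 - t ^ 4 := by
    have : Tendsto (fun t : ℝ => 1 - t ^ 4) (𝓝 0) (𝓝 (1 - 0 ^ 4)) := by
      apply Continuous.tendsto
      fun_prop
    have h2 : (0 : ℝ) < 1 - 0 ^ 4 := by norm_num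
    exact this.eventually (lt_mem_nhds h2)
  have hα0 : α 0 = 1 := by simp [α]
  have hα'0 : α' 0 = 0 := by simp [α']
  have hα'' : HasDerivAt α' 0 0 := by
    have h1 : HasDerivAt (fun t : ℝ => -(4 * t ^ 3)) 0 0 := by
      have := ((hasDerivAt_pow 3 (0 : ℝ)).const_mul 4).fun_neg
      simpa using this
    have h2 : HasDerivAt (fun t : ℝ => 2 * Real.sqrt (1 - t ^ 4)) (2 * α' 0) 0 :=
      (hαd 0 (by norm_num)).const_mul 2
    have h3 := h1.fun_div h2 (by simp)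
    simpa using h3
  refine second_along (r := r) (p := pt k) (v := v) (c := fun t => α t • pt k + t • v)
    (c' := fun t => α' t • pt k + v) hcd ?_ ?_ ?_ ?_ ?_
  · simp [hα0]
  · filter_upwards [hev] with t ht
    have h1 := (hαd t ht.ne').smul_const (pt k)
    have h2 := (hasDerivAt_id t).smul_const v
    have h3 := h1.fun_add h2
    simpa using h3
  · simp [hα'0]
  · have h1 := (hα''.smul_const (pt k)).add_const v
    simpa using h1
  · have hcont : ContinuousAt (fun t : ℝ => α t • pt k + t • v) 0 := by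
      have h1 : ContinuousAt α 0 := (hαd 0 (by norm_num)).continuousAt
      fun_prop
    have h2 : Tendsto (fun t : ℝ => α t • pt k + t • v) (𝓝 0) (𝓝 (pt k)) := by
      have h3 : Tendsto (fun t : ℝ => α t • pt k + t • v) (𝓝 0) (𝓝 (α 0 • pt k + (0 : ℝ) • v)) :=
        hcont.tendsto
      simpa [hα0] using h3
    filter_upwards [h2.eventually (h.2.1.mem_nhds h.2.2.1), hev] with t ht1 ht2
    apply defining_zero h ht1
    have e1 : (α t • pt k + t • v) = EuclideanSpace.single 0 ((α t : ℝ) : ℂ) +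
        EuclideanSpace.single 1 ((t : ℂ) * c) := by
      ext i
      simp [pt, hv]
    have e2 : (α t • pt k + t • v) 1 = (t : ℂ) * c := by rw [e1]; simp
    have e3 : ∑ i ∈ (Finset.univ.erase (1 : Fin (k + 2))), ‖(α t • pt k + t • v) i‖ ^ 2 = α t ^ 2 := by
      rw [Finset.sum_eq_single 0]
      · rw [e1]
        simp
      · intro i hi hi0
        have hi1 := Finset.ne_of_mem_erase hi
        rw [e1]
        simp [hi0, hi1]
      · intro hcon
        exact absurd (by simp) hcon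
    rw [rho_eq, e3, e2, norm_mul, hc, mul_one, Complex.norm_real]
    have e4 : α t ^ 2 = 1 - t ^ 4 := Real.sq_sqrt ht2.le
    have e5 : ‖t‖ ^ 4 = t ^ 4 := by
      rw [Real.norm_eq_abs]
      have : |t| ^ 4 = (|t| ^ 2) ^ 2 := by ring
      rw [this, sq_abs]
      ring
    rw [e4, e5]
    ring

theorem not_stronglyPseudoconvexAt : ¬ StronglyPseudoconvexAt (dom k) (pt k) := by
  rintro ⟨U, r, h, hpos⟩
  set v : E (k + 2) := EuclideanSpace.single 1 1 with hv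
  have h1 := hess_zero h (c := 1) (by simp)
  have h2 := hess_zero h (c := Complex.I) (by simp)
  have e1 : Complex.I • v = EuclideanSpace.single 1 Complex.I := by
    ext i
    simp [hv]
  have h3 := hpos v (by simp [hv]) ⟨h1.1, by rw [e1]; exact h2.1⟩
  rw [levi, e1, h1.2, h2.2] at h3
  simp at h3

end Pool.Agent.W737.Ell
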