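import Pool.Agent.W737.Ell.Sq

set_option autoImplicit false

namespace Pool.Agent.W737.Ell

open Filter Topology Set Metric

variable {k : ℕ}

/-- Principal square root of `1 - a z`. -/
noncomputable def qr (a : ℝ) (z : ℂ) : ℂ := (1 - (a : ℂ) * z) ^ (1 / 2 : ℂ)

theorem one_sub_re_pos {a : ℝ} (ha0 : 0 < a) (ha1 : a < 1) {z : ℂ} (hz : ‖z‖ < 1) :
    0 < (1 - (a : ℂ) * z).re := by
  rw [Complex.sub_re, Complex.one_re, Complex.re_ofReal_mul]
  have h2 : z.re < 1 := (Complex.re_le_norm z).trans_lt hz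
  nlinarith

theorem one_sub_ne {a : ℝ} (ha0 : 0 < a) (ha1 : a < 1) {z : ℂ} (hz : ‖z‖ < 1) :
    (1 - (a : ℂ) * z) ≠ 0 := by
  intro h
  have := one_sub_re_pos ha0 ha1 hz
  rw [h] at this
  simp at this

theorem qr_sq (a : ℝ) (z : ℂ) (h : (1 - (a : ℂ) * z) ≠ 0) : qr a z ^ 2 = 1 - a * z := by
  rw [qr, ← Complex.cpow_nat_mul]
  norm_num

theorem qr_ne (a : ℝ) (z : ℂ) (h : (1 - (a : ℂ) * z) ≠ 0) : qr a z ≠ 0 := by
  intro h1
  have := qr_sq a z h
  rw [h1] at this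
  apply h
  rw [← this]
  norm_num

theorem norm_qr_sq (a : ℝ) (z : ℂ) (h : (1 - (a : ℂ) * z) ≠ 0) : ‖qr a z‖ ^ 2 = ‖1 - a * z‖ := by
  rw [← norm_pow, qr_sq a z h]

/-- The automorphism. -/
noncomputable def Au (k : ℕ) (a β : ℝ) (x : E (k + 2)) : E (k + 2) :=
  WithLp.toLp 2 fun i => if i = 0 then (x 0 - a) / (1 - a * x 0) else
    if i = 1 then β * x 1 / qr a (x 0) else (β : ℂ) ^ 2 * x i / (1 - a * x 0)

theorem Au_zero (a β : ℝ) (x : E (k + 2)) : Au k a β x 0 = (x 0 - a) / (1 - a * x 0) := by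
  simp [Au]

theorem Au_one (a β : ℝ) (x : E (k + 2)) : Au k a β x 1 = β * x 1 / qr a (x 0) := by
  simp [Au]

theorem Au_ne (a β : ℝ) (x : E (k + 2)) {i : Fin (k + 2)} (h0 : i ≠ 0) (h1 : i ≠ 1) :
    Au k a β x i = (β : ℂ) ^ 2 * x i / (1 - a * x 0) := by
  simp [Au, h0, h1]

theorem sum_erase_zero_one (x : E (k + 2)) :
    rho k x = ‖x 0‖ ^ 2 + ∑ i ∈ (Finset.univ.erase (1 : Fin (k + 2))).erase 0, ‖x i‖ ^ 2
      + ‖x 1‖ ^ 4 - 1 := by
  rw [rho_eq, ← Finset.add_sum_erase (Finset.univ.erase (1 : Fin (k + 2))) _ (a := 0)]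
  simp

theorem mob_identity {a : ℝ} (z : ℂ) :
    ‖1 - a * z‖ ^ 2 - ‖z - a‖ ^ 2 = (1 - a ^ 2) * (1 - ‖z‖ ^ 2) := by
  rw [← Complex.normSq_eq_norm_sq, ← Complex.normSq_eq_norm_sq, ← Complex.normSq_eq_norm_sq,
    Complex.normSq_apply, Complex.normSq_apply, Complex.normSq_apply]
  simp only [Complex.sub_re, Complex.sub_im, Complex.one_re, Complex.one_im, Complex.ofReal_re,
    Complex.ofReal_im, Complex.re_ofReal_mul, Complex.im_ofReal_mul]
  ring

theorem rho_Au {a β : ℝ} (ha : a ^ 2 = 1 - β ^ 4) (x : E (k + 2))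
    (hne : (1 - (a : ℂ) * x 0) ≠ 0) :
    rho k (Au k a β x) = β ^ 4 * rho k x / ‖1 - (a : ℂ) * x 0‖ ^ 2 := by
  have hpos : 0 < ‖1 - (a : ℂ) * x 0‖ := norm_pos_iff.2 hne
  rw [sum_erase_zero_one, sum_erase_zero_one, Au_zero, Au_one]
  have h1 : ∑ i ∈ (Finset.univ.erase (1 : Fin (k + 2))).erase 0, ‖Au k a β x i‖ ^ 2 =
      β ^ 4 * (∑ i ∈ (Finset.univ.erase (1 : Fin (k + 2))).erase 0, ‖x i‖ ^ 2) /
        ‖1 - (a : ℂ) * x 0‖ ^ 2 := by
    rw [Finset.mul_sum, Finset.sum_div]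
    refine Finset.sum_congr rfl fun i hi => ?_
    have hi0 := Finset.ne_of_mem_erase hi
    have hi1 := Finset.ne_of_mem_erase (Finset.mem_of_mem_erase hi)
    rw [Au_ne a β x hi0 hi1, norm_div, div_pow, norm_mul, norm_pow, Complex.norm_real, mul_pow,
      ← pow_mul, Real.norm_eq_abs]
    norm_num
    have : |β| ^ 4 = (|β| ^ 2) ^ 2 := by ring
    rw [this, sq_abs]
    ring
  have h2 : ‖(β : ℂ) * x 1 / qr a (x 0)‖ ^ 4 = β ^ 4 * ‖x 1‖ ^ 4 / ‖1 - (a : ℂ) * x 0‖ ^ 2 := by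
    rw [norm_div, norm_mul, Complex.norm_real, div_pow, mul_pow]
    have e1 : ‖qr a (x 0)‖ ^ 4 = ‖1 - (a : ℂ) * x 0‖ ^ 2 := by
      rw [← norm_qr_sq a (x 0) hne]; ring
    have e2 : ‖β‖ ^ 4 = β ^ 4 := by
      rw [Real.norm_eq_abs]
      have : |β| ^ 4 = (|β| ^ 2) ^ 2 := by ring
      rw [this, sq_abs]
      ring
    rw [e1, e2]
  have h3 : ‖(x 0 - (a : ℂ)) / (1 - (a : ℂ) * x 0)‖ ^ 2 =
      1 - β ^ 4 * (1 - ‖x 0‖ ^ 2) / ‖1 - (a : ℂ) * x 0‖ ^ 2 := by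
    rw [norm_div, div_pow]
    have := mob_identity (a := a) (x 0)
    rw [ha] at this
    have hp2 : ‖1 - (a : ℂ) * x 0‖ ^ 2 ≠ 0 := by positivity
    rw [eq_sub_iff_add_eq, ← add_div, div_eq_one_iff_eq hp2]
    linarith
  rw [h1, h2, h3]
  field_simp
  ring

theorem mapsTo_Au {a β : ℝ} (hβ : 0 < β) (ha0 : 0 < a) (ha1 : a < 1) (ha : a ^ 2 = 1 - β ^ 4) :
    MapsTo (Au k a β) (dom k) (dom k) := by
  intro x hx
  have hne := one_sub_ne ha0 ha1 (norm_zero_lt_of_mem hx)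
  change rho k _ < 0
  rw [rho_Au ha x hne]
  have h : rho k x < 0 := hx
  have hpos : 0 < ‖1 - (a : ℂ) * x 0‖ := norm_pos_iff.2 hne
  apply div_neg_of_neg_of_pos
  · exact mul_neg_of_pos_of_neg (by positivity) h
  · positivity

theorem differentiableOn_Au {a β : ℝ} (ha0 : 0 < a) (ha1 : a < 1) :
    DifferentiableOn ℂ (Au k a β) (dom k) := by
  rw [differentiableOn_euclidean]
  intro i
  have hc : ∀ j : Fin (k + 2), DifferentiableOn ℂ (fun x : E (k + 2) => x j) (dom k) := by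
    intro j
    exact (EuclideanSpace.proj j : E (k + 2) →L[ℂ] ℂ).differentiable.differentiableOn
  have hd : DifferentiableOn ℂ (fun x : E (k + 2) => (1 - (a : ℂ) * x 0)) (dom k) := by
    have := hc 0
    fun_prop
  have hne : ∀ x ∈ dom k, (1 - (a : ℂ) * x 0) ≠ 0 :=
    fun x hx => one_sub_ne ha0 ha1 (norm_zero_lt_of_mem hx)
  by_cases hi : i = 0
  · subst hi
    simp only [Au_zero, div_eq_mul_inv]
    refine DifferentiableOn.fun_mul ?_ (hd.fun_inv hne)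
    have := hc 0
    fun_prop
  · by_cases hi1 : i = 1
    · subst hi1
      simp only [Au_one, div_eq_mul_inv]
      refine DifferentiableOn.fun_mul ?_ (DifferentiableOn.fun_inv ?_ ?_)
      · have := hc 1
        fun_prop
      · have : DifferentiableOn ℂ (fun x : E (k + 2) => (1 - (a : ℂ) * x 0) ^ (1 / 2 : ℂ)) (dom k) := by
          refine DifferentiableOn.cpow_const hd ?_
          intro x hx
          exact Or.inl (one_sub_re_pos ha0 ha1 (norm_zero_lt_of_mem hx))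
        exact this
      · intro x hx
        exact qr_ne a _ (hne x hx)
    · simp only [Au_ne a β _ hi hi1, div_eq_mul_inv]
      refine DifferentiableOn.fun_mul ?_ (hd.fun_inv hne)
      have := hc i
      fun_prop

theorem injOn_Au {a β : ℝ} (hβ : 0 < β) (ha0 : 0 < a) (ha1 : a < 1) :
    InjOn (Au k a β) (dom k) := by
  intro x hx y hy hxy
  have hnx := one_sub_ne ha0 ha1 (norm_zero_lt_of_mem hx)
  have hny := one_sub_ne ha0 ha1 (norm_zero_lt_of_mem hy)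
  have hβ' : (β : ℂ) ≠ 0 := by exact_mod_cast hβ.ne'
  have h0 : x 0 = y 0 := by
    have h2 : Au k a β x 0 = Au k a β y 0 := by rw [hxy]
    rw [Au_zero, Au_zero, div_eq_div_iff hnx hny] at h2
    have h3 : ((1 : ℂ) - (a : ℂ) ^ 2) * (x 0 - y 0) = 0 := by linear_combination h2
    have h4 : ((1 : ℂ) - (a : ℂ) ^ 2) ≠ 0 := by
      intro h
      have h5 : ((1 - a ^ 2 : ℝ) : ℂ) = 0 := by push_cast; exact h
      have h6 : (1 - a ^ 2 : ℝ) = 0 := by exact_mod_cast h5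
      nlinarith
    exact sub_eq_zero.1 ((mul_eq_zero.1 h3).resolve_left h4)
  ext i
  by_cases hi : i = 0
  · rw [hi, h0]
  · by_cases hi1 : i = 1
    · subst hi1
      have h2 : Au k a β x 1 = Au k a β y 1 := by rw [hxy]
      rw [Au_one, Au_one, ← h0, div_left_inj' (qr_ne a _ hnx)] at h2
      exact mul_left_cancel₀ hβ' h2
    · have h2 : Au k a β x i = Au k a β y i := by rw [hxy]
      rw [Au_ne a β x hi hi1, Au_ne a β y hi hi1, ← h0, div_left_inj' hnx] at h2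
      exact mul_left_cancel₀ (pow_ne_zero _ hβ') h2

/-- The inverse automorphism. -/
noncomputable def Bu (k : ℕ) (a β : ℝ) (y : E (k + 2)) : E (k + 2) :=
  WithLp.toLp 2 fun i => if i = 0 then (y 0 + a) / (1 + a * y 0) else
    if i = 1 then qr a ((y 0 + a) / (1 + a * y 0)) * y 1 / β
      else (1 - a * ((y 0 + a) / (1 + a * y 0))) * y i / (β : ℂ) ^ 2

theorem Au_Bu {a β : ℝ} (hβ : 0 < β) (ha0 : 0 < a) (ha1 : a < 1) (ha : a ^ 2 = 1 - β ^ 4)
    {y : E (k + 2)} (hy : ‖y 0‖ < 1) :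
    (1 - (a : ℂ) * Bu k a β y 0) ≠ 0 ∧ Au k a β (Bu k a β y) = y := by
  have hβ' : (β : ℂ) ≠ 0 := by exact_mod_cast hβ.ne'
  have hy1 : (1 + (a : ℂ) * y 0) ≠ 0 := by
    have h1 := one_sub_ne ha0 ha1 (z := -y 0) (by rwa [norm_neg])
    intro h
    apply h1
    rw [mul_neg, sub_neg_eq_add, h]
  have h0 : Bu k a β y 0 = (y 0 + a) / (1 + a * y 0) := by simp [Bu]
  have haC : (a : ℂ) ^ 2 = 1 - (β : ℂ) ^ 4 := by exact_mod_cast congrArg (Complex.ofReal) ha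
  have h2 : (1 - (a : ℂ) * Bu k a β y 0) = (β : ℂ) ^ 4 / (1 + a * y 0) := by
    rw [h0]
    field_simp
    linear_combination -haC
  have hne : (1 - (a : ℂ) * Bu k a β y 0) ≠ 0 := by
    rw [h2]
    exact div_ne_zero (pow_ne_zero _ hβ') hy1
  have h1 : Bu k a β y 1 = qr a (Bu k a β y 0) * y 1 / β := by rw [h0]; simp [Bu]
  have hi : ∀ i : Fin (k + 2), i ≠ 0 → i ≠ 1 →
      Bu k a β y i = (1 - a * (Bu k a β y 0)) * y i / (β : ℂ) ^ 2 := by
    intro i h0' h1'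
    rw [h0]
    simp [Bu, h0', h1']
  refine ⟨hne, ?_⟩
  ext i
  by_cases hi0 : i = 0
  · subst hi0
    rw [Au_zero, div_eq_iff hne, h2, h0]
    have e1 : (y 0 + (a : ℂ)) / (1 + a * y 0) - a = (y 0 + a - a * (1 + a * y 0)) / (1 + a * y 0) := by
      rw [sub_div, mul_div_assoc, div_self hy1, mul_one]
    rw [e1, mul_div_assoc']
    congr 1
    linear_combination -(y 0) * haC
  · by_cases hi1 : i = 1
    · subst hi1
      rw [Au_one, h1]
      have := qr_ne a _ hne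
      field_simp
    · rw [Au_ne a β _ hi0 hi1, hi i hi0 hi1]
      field_simp

theorem surj_Au {a β : ℝ} (hβ : 0 < β) (ha0 : 0 < a) (ha1 : a < 1) (ha : a ^ 2 = 1 - β ^ 4)
    {y : E (k + 2)} (hy : y ∈ dom k) : Bu k a β y ∈ dom k ∧ Au k a β (Bu k a β y) = y := by
  obtain ⟨hne, h⟩ := Au_Bu hβ ha0 ha1 ha (norm_zero_lt_of_mem hy)
  refine ⟨?_, h⟩
  have h1 := rho_Au ha (Bu k a β y) hne
  rw [h] at h1
  have h2 : rho k y < 0 := hy
  change rho k _ < 0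
  by_contra hcon
  push Not at hcon
  have h3 : 0 ≤ β ^ 4 * rho k (Bu k a β y) / ‖1 - (a : ℂ) * Bu k a β y 0‖ ^ 2 := by positivity
  linarith

end Pool.Agent.W737.Ell
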