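import Mathlib

set_option autoImplicit false

namespace Pool.Agent.W737.Ell

open Filter Topology Set Metric

/-- `ℂⁿ` with its Euclidean norm. -/
abbrev E (n : ℕ) := EuclideanSpace ℂ (Fin n)

/-- The squeezing function of `D ⊆ ℂⁿ` at `z`: the supremum of the radii `r > 0` such that some
injective holomorphic map `F : D → 𝔹ⁿ(0,1)` with `F z = 0` has image containing `𝔹ⁿ(0,r)`. -/
noncomputable def squeezing {n : ℕ} (D : Set (E n)) (z : E n) : ℝ :=
  sSup {r : ℝ | 0 < r ∧ ∃ F : E n → E n, DifferentiableOn ℂ F D ∧ InjOn F D ∧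
    MapsTo F D (ball 0 1) ∧ F z = 0 ∧ ball 0 r ⊆ F '' D}

/-- `r` is a `C^∞` defining function of `D` on the open neighbourhood `U` of the boundary
point `p`. -/
def IsLocalDefining {n : ℕ} (D : Set (E n)) (p : E n) (U : Set (E n)) (r : E n → ℝ) : Prop :=
  p ∈ frontier D ∧ IsOpen U ∧ p ∈ U ∧ ContDiffOn ℝ (⊤ : ℕ∞) r U ∧
    (∀ z ∈ U, fderiv ℝ r z ≠ 0) ∧ D ∩ U = {z | z ∈ U ∧ r z < 0}

/-- `v` is a complex tangent vector at `q` to the level set of `r` through `q`. -/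
def CTangent {n : ℕ} (r : E n → ℝ) (q v : E n) : Prop :=
  fderiv ℝ r q v = 0 ∧ fderiv ℝ r q (Complex.I • v) = 0

/-- (Four times) the Levi form of `r` at `q` in the direction `v`. -/
noncomputable def levi {n : ℕ} (r : E n → ℝ) (q v : E n) : ℝ :=
  fderiv ℝ (fderiv ℝ r) q v v + fderiv ℝ (fderiv ℝ r) q (Complex.I • v) (Complex.I • v)

/-- The zero set of the defining function `r` is Levi pseudoconvex in `U`. -/
def LeviPseudoconvexOn {n : ℕ} (U : Set (E n)) (r : E n → ℝ) : Prop :=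
  ∀ q ∈ U, r q = 0 → ∀ v, CTangent r q v → 0 ≤ levi r q v

/-- The zero set of the defining function `r` has finite D'Angelo type at `q`: for some `T`, every
nonconstant germ of a holomorphic curve `γ` with `γ 0 = q` and order `m` satisfies
`ord (r ∘ γ) ≤ T m`. -/
def FiniteTypeAt {n : ℕ} (r : E n → ℝ) (q : E n) : Prop :=
  ∃ T : ℕ, ∀ γ : ℂ → E n, ∀ ε : ℝ, 0 < ε → DifferentiableOn ℂ γ (ball 0 ε) → γ 0 = q →
    ∀ m : ℕ, 1 ≤ m → iteratedDeriv m γ 0 ≠ 0 →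
      (∀ j : ℕ, 1 ≤ j → j < m → iteratedDeriv j γ 0 = 0) →
      ∃ k : ℕ, k ≤ T * m ∧ iteratedFDeriv ℝ k (r ∘ γ) 0 ≠ 0

/-- `∂D` is `C^∞` and strongly (Levi) pseudoconvex at the boundary point `p`. -/
def StronglyPseudoconvexAt {n : ℕ} (D : Set (E n)) (p : E n) : Prop :=
  ∃ (U : Set (E n)) (r : E n → ℝ), IsLocalDefining D p U r ∧
    ∀ v : E n, v ≠ 0 → CTangent r p v → 0 < levi r p v

/-- Case (A) of admissibility: `n = 2`, `∂D` is `C^∞` and Levi pseudoconvex near `p`, and `p` is of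
finite type. -/
def CaseA {n : ℕ} (D : Set (E n)) (p : E n) : Prop :=
  n = 2 ∧ ∃ (U : Set (E n)) (r : E n → ℝ), IsLocalDefining D p U r ∧
    LeviPseudoconvexOn U r ∧ FiniteTypeAt r p

/-- Case (B) of admissibility: `n ≥ 2`, `∂D` is `C^∞`, Levi pseudoconvex and of finite type
near `p`, and the Levi form at `p` has at least `n - 2` positive eigenvalues. -/
def CaseB {n : ℕ} (D : Set (E n)) (p : E n) : Prop :=
  2 ≤ n ∧ ∃ (U : Set (E n)) (r : E n → ℝ), IsLocalDefining D p U r ∧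
    LeviPseudoconvexOn U r ∧ (∀ q ∈ U, r q = 0 → FiniteTypeAt r q) ∧
    ∃ W : Submodule ℂ (E n), n - 2 ≤ Module.finrank ℂ W ∧
      ∀ v ∈ W, v ≠ 0 → CTangent r p v ∧ 0 < levi r p v

/-- Case (C) of admissibility: `n ≥ 2`, `D` is convex, and `∂D` is `C^∞` and of finite type
near `p`. -/
def CaseC {n : ℕ} (D : Set (E n)) (p : E n) : Prop :=
  2 ≤ n ∧ Convex ℝ D ∧ ∃ (U : Set (E n)) (r : E n → ℝ), IsLocalDefining D p U r ∧
    ∀ q ∈ U, r q = 0 → FiniteTypeAt r q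

/-! ## The example -/

/-- The defining function `|x_0|² + |x_2|² + … + |x_{n-1}|² + |x_1|⁴ - 1` of the ellipsoid. -/
noncomputable def rho (k : ℕ) (x : E (k + 2)) : ℝ := ‖x‖ ^ 2 - ‖x 1‖ ^ 2 + ‖x 1‖ ^ 4 - 1

/-- The ellipsoid. -/
def dom (k : ℕ) : Set (E (k + 2)) := {x | rho k x < 0}

end Pool.Agent.W737.Ell
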