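import Pool.Agent.W737.Ell.Geom
import Pool.Agent.Sq58.Order

set_option autoImplicit false

namespace Pool.Agent.W737.Ell

open Filter Topology Set Metric

variable {k : ℕ}

/-- Taylor bound from vanishing derivatives. -/
theorem order_upper {F : ℂ → ℝ} {W : Set ℂ} (hW : IsOpen W) (h0 : (0 : ℂ) ∈ W)
    (hF : ContDiffOn ℝ (⊤ : ℕ∞) F W) (N : ℕ)
    (hz : ∀ j ≤ N, iteratedFDeriv ℝ j F 0 = 0) :
    ∃ C r : ℝ, 0 < C ∧ 0 < r ∧ ∀ ζ : ℂ, ‖ζ‖ < r → |F ζ| ≤ C * ‖ζ‖ ^ (N + 1) := by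
  have hF0 : F 0 = 0 := by
    have h1 := hz 0 (Nat.zero_le _)
    have h2 : iteratedFDeriv ℝ 0 F 0 (fun _ => 0) = 0 := by rw [h1]; rfl
    simpa using h2
  obtain ⟨ε, hε, hball⟩ := Metric.isOpen_iff.1 hW 0 h0
  have hmem : ∀ η : ℂ, ‖η‖ = 1 → ∀ s ∈ Set.Icc (0 : ℝ) (ε / 2), (s : ℂ) * η ∈ Metric.closedBall (0 : ℂ) (ε / 2) := by
    intro η hη s hs
    rw [mem_closedBall_zero_iff, norm_mul, hη, mul_one, Complex.norm_real, Real.norm_eq_abs,
      abs_of_nonneg hs.1]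
    exact hs.2
  have hsub : Metric.closedBall (0 : ℂ) (ε / 2) ⊆ W := by
    intro z hz
    apply hball
    rw [mem_ball_zero_iff]
    rw [mem_closedBall_zero_iff] at hz
    linarith
  obtain ⟨M, hM⟩ := (isCompact_closedBall (0 : ℂ) (ε / 2)).exists_bound_of_continuousOn
    (f := iteratedFDeriv ℝ (N + 1) F) (by
      intro z hz
      have h3 : ContDiffAt ℝ (⊤ : ℕ∞) F z := hF.contDiffAt (hW.mem_nhds (hsub hz))
      have h4 : ContDiffAt ℝ 0 (iteratedFDeriv ℝ (N + 1) F) z := by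
        apply h3.iteratedFDeriv_right
        rw [zero_add]
        exact_mod_cast (le_top : ((N + 1 : ℕ) : ℕ∞) ≤ ⊤)
      exact h4.continuousAt.continuousWithinAt)
  have hM0 : 0 ≤ M := (norm_nonneg _).trans (hM 0 (by rw [mem_closedBall_zero_iff, norm_zero]; linarith))
  have hfact : (1 : ℝ) ≤ (N + 1).factorial := by
    exact_mod_cast Nat.one_le_iff_ne_zero.2 (Nat.factorial_ne_zero (N + 1))
  have hder : ∀ η : ℂ, ‖η‖ = 1 → ∀ j, ∀ s ∈ Set.Icc (0 : ℝ) (ε / 2),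
      HasDerivAt (fun s : ℝ => iteratedFDeriv ℝ j F (s * η) (fun _ => η))
      (iteratedFDeriv ℝ (j + 1) F (s * η) (fun _ => η)) s := by
    intro η hη j s hs
    exact Sq58.order_facts_ray hW hF η j s (hsub (hmem η hη s hs))
  have hzero : ∀ η : ℂ, ∀ j < N + 1, iteratedFDeriv ℝ j F (((0 : ℝ) : ℂ) * η) (fun _ => η) = 0 := by
    intro η j hj
    rw [Complex.ofReal_zero, zero_mul, hz j (by omega)]
    rfl
  refine ⟨M + 1, ε / 2, by linarith, by linarith, ?_⟩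
  have hup : ∀ η : ℂ, ‖η‖ = 1 → ∀ s ∈ Set.Icc (0 : ℝ) (ε / 2), |F (s * η)| ≤ M * s ^ (N + 1) := by
    intro η hη s hs
    have hb : ∀ s ∈ Set.Icc (0 : ℝ) (ε / 2),
        |iteratedFDeriv ℝ (N + 1) F (s * η) (fun _ => η)| ≤ M := by
      intro s hs
      have h3 := (iteratedFDeriv ℝ (N + 1) F (s * η)).le_opNorm (fun _ => η)
      rw [Real.norm_eq_abs] at h3
      simp only [hη, Finset.prod_const_one, mul_one] at h3
      exact h3.trans (hM _ (hmem η hη s hs))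
    have h3 := Sq58.order_facts_mono (N + 1) (fun j s => iteratedFDeriv ℝ j F (s * η) (fun _ => η))
      (ε / 2) (-M) (hder η hη) (hzero η) (fun s hs => (abs_le.1 (hb s hs)).1) s hs
    have h4 := Sq58.order_facts_mono (N + 1) (fun j s => - iteratedFDeriv ℝ j F (s * η) (fun _ => η))
      (ε / 2) (-M) (fun j s hs => (hder η hη j s hs).neg)
      (fun j hj => by rw [hzero η j hj, neg_zero])
      (fun s hs => by have := (abs_le.1 (hb s hs)).2; linarith) s hs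
    simp only [iteratedFDeriv_zero_apply] at h3 h4
    have hsk : 0 ≤ s ^ (N + 1) := pow_nonneg hs.1 _
    have h5 : M * s ^ (N + 1) / (N + 1).factorial ≤ M * s ^ (N + 1) :=
      div_le_self (mul_nonneg hM0 hsk) hfact
    have h6 : -M * s ^ (N + 1) / (N + 1).factorial = -(M * s ^ (N + 1) / (N + 1).factorial) := by ring
    rw [h6] at h3 h4
    rw [abs_le]
    constructor <;> linarith
  intro ζ hζ
  by_cases hζ0 : ζ = 0
  · rw [hζ0, hF0, abs_zero]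
    positivity
  · have hn : ‖ζ‖ ≠ 0 := norm_ne_zero_iff.2 hζ0
    have hη : ‖ζ / ‖ζ‖‖ = 1 := by
      rw [norm_div, Complex.norm_real, norm_norm, div_self hn]
    have h3 := hup (ζ / ‖ζ‖) hη ‖ζ‖ ⟨norm_nonneg _, hζ.le⟩
    have h4 : (‖ζ‖ : ℂ) * (ζ / ‖ζ‖) = ζ := by
      have : (‖ζ‖ : ℂ) ≠ 0 := by exact_mod_cast hn
      field_simp
    rw [h4] at h3
    have h5 : 0 ≤ ‖ζ‖ ^ (N + 1) := by positivity
    linarith

/-- Mean value inequality through the maximum principle. -/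
theorem no_order {n : ℕ} {H : ℂ → E n} {g : ℂ → ℂ} {ε C : ℝ} (hε : 0 < ε) (k : ℕ) (j : Fin n)
    (hH : DifferentiableOn ℂ H (ball 0 ε)) (hg : DifferentiableOn ℂ g (ball 0 ε)) (hg0 : g 0 ≠ 0)
    (hfac : ∀ ζ ∈ ball (0 : ℂ) ε, H ζ j - H 0 j = ζ ^ k * g ζ)
    (hb : ∀ ζ ∈ ball (0 : ℂ) ε, ‖H ζ‖ ^ 2 ≤ ‖H 0‖ ^ 2 + C * ‖ζ‖ ^ (2 * k + 1)) : False := by
  have key : ∀ ρ : ℝ, 0 < ρ → ρ < ε → ‖g 0‖ ^ 2 ≤ C * ρ := by
    intro ρ hρ hρε
    set a := H 0 with ha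
    set κ := g 0 with hκ
    set Ψ : ℂ → ℂ := fun ζ => ((‖a‖ ^ 2 : ℝ) : ℂ) + 2 * inner ℂ a (H ζ - a)
      + 2 * ((ρ ^ (2 * k) : ℝ) : ℂ) * ((starRingEnd ℂ) κ * g ζ) - ((ρ ^ (2 * k) * ‖κ‖ ^ 2 : ℝ) : ℂ)
      with hΨ
    have hin : DifferentiableOn ℂ (fun ζ => inner ℂ a (H ζ - a)) (ball 0 ε) :=
      (innerSL ℂ a).differentiable.comp_differentiableOn (hH.sub_const a)
    have hΨd : DifferentiableOn ℂ Ψ (ball 0 ε) := by
      simp only [hΨ]
      fun_prop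
    have hre : ∀ ζ, (Ψ ζ).re = ‖a‖ ^ 2 + 2 * (inner ℂ a (H ζ - a)).re +
        ρ ^ (2 * k) * (2 * ((starRingEnd ℂ) κ * g ζ).re - ‖κ‖ ^ 2) := by
      intro ζ
      simp only [hΨ]
      have t1 : (2 * inner ℂ a (H ζ - a)).re = 2 * (inner ℂ a (H ζ - a)).re := by simp
      have t2 : (2 * ((ρ ^ (2 * k) : ℝ) : ℂ) * ((starRingEnd ℂ) κ * g ζ)).re =
          2 * ρ ^ (2 * k) * ((starRingEnd ℂ) κ * g ζ).re := by
        have : (2 * ((ρ ^ (2 * k) : ℝ) : ℂ) * ((starRingEnd ℂ) κ * g ζ)) =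
          ((2 * ρ ^ (2 * k) : ℝ) : ℂ) * ((starRingEnd ℂ) κ * g ζ) := by push_cast; ring
        rw [this, Complex.re_ofReal_mul]
      rw [Complex.sub_re, Complex.add_re, Complex.add_re, Complex.ofReal_re, Complex.ofReal_re,
        t1, t2]
      ring
    have hbound : ∀ ζ ∈ sphere (0 : ℂ) ρ, (Ψ ζ).re ≤ ‖a‖ ^ 2 + C * ρ ^ (2 * k + 1) := by
      intro ζ hζ
      rw [mem_sphere, dist_zero_right] at hζ
      have hζb : ζ ∈ ball (0 : ℂ) ε := by rw [mem_ball_zero_iff, hζ]; exact hρε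
      have h1 := hb ζ hζb
      rw [hζ] at h1
      have h2 : ‖H ζ‖ ^ 2 = ‖a‖ ^ 2 + 2 * (inner ℂ a (H ζ - a)).re + ‖H ζ - a‖ ^ 2 := by
        have : H ζ = a + (H ζ - a) := by abel
        conv_lhs => rw [this, @norm_add_sq ℂ]
        simp only [RCLike.re_to_complex]
      have h3 : ρ ^ (2 * k) * ‖g ζ‖ ^ 2 ≤ ‖H ζ - a‖ ^ 2 := by
        have h4 : ‖(H ζ - a) j‖ ≤ ‖H ζ - a‖ := PiLp.norm_apply_le _ j
        have h5 : (H ζ - a) j = ζ ^ k * g ζ := by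
          rw [← hfac ζ hζb]
          rfl
        rw [h5, norm_mul, norm_pow, hζ] at h4
        calc ρ ^ (2 * k) * ‖g ζ‖ ^ 2 = (ρ ^ k * ‖g ζ‖) ^ 2 := by ring
          _ ≤ ‖H ζ - a‖ ^ 2 := by gcongr
      have h6 : 2 * ((starRingEnd ℂ) κ * g ζ).re - ‖κ‖ ^ 2 ≤ ‖g ζ‖ ^ 2 := by
        have h7 : 0 ≤ ‖g ζ - κ‖ ^ 2 := by positivity
        rw [← Complex.normSq_eq_norm_sq] at h7 ⊢
        rw [← Complex.normSq_eq_norm_sq, Complex.normSq_apply] at *
        rw [Complex.normSq_apply]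
        simp only [Complex.sub_re, Complex.sub_im, Complex.mul_re, Complex.conj_re,
          Complex.conj_im] at *
        nlinarith
      rw [hre]
      have h8 : 0 ≤ ρ ^ (2 * k) := by positivity
      have h9 := mul_le_mul_of_nonneg_left h6 h8
      linarith
    have hmax : (Ψ 0).re ≤ ‖a‖ ^ 2 + C * ρ ^ (2 * k + 1) := by
      have hcl : closedBall (0 : ℂ) ρ ⊆ ball 0 ε := closedBall_subset_ball hρε
      have hdc : DiffContOnCl ℂ (fun ζ => Complex.exp (Ψ ζ)) (ball 0 ρ) := by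
        apply DifferentiableOn.diffContOnCl
        rw [closure_ball _ hρ.ne']
        exact (hΨd.mono hcl).cexp
      have := Complex.norm_le_of_forall_mem_frontier_norm_le (U := ball (0 : ℂ) ρ) isBounded_ball hdc
        (C := Real.exp (‖a‖ ^ 2 + C * ρ ^ (2 * k + 1))) (by
          intro z hz
          rw [frontier_ball _ hρ.ne'] at hz
          rw [Complex.norm_exp]
          exact Real.exp_le_exp.2 (hbound z hz)) (z := 0) (subset_closure (by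
            rw [mem_ball_zero_iff, norm_zero]; exact hρ))
      rw [Complex.norm_exp] at this
      exact Real.exp_le_exp.1 this
    rw [hre] at hmax
    have h1 : ((starRingEnd ℂ) κ * g 0).re = ‖κ‖ ^ 2 := by
      rw [← hκ, mul_comm, Complex.mul_conj, Complex.ofReal_re, Complex.normSq_eq_norm_sq]
    rw [h1, ← ha, sub_self, inner_zero_right, Complex.zero_re] at hmax
    have h2 : ρ ^ (2 * k) * ‖κ‖ ^ 2 ≤ ρ ^ (2 * k) * (C * ρ) := by
      have : C * ρ ^ (2 * k + 1) = ρ ^ (2 * k) * (C * ρ) := by ring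
      linarith
    exact le_of_mul_le_mul_left h2 (by positivity)
  have h1 : Tendsto (fun ρ : ℝ => C * ρ) (𝓝[>] 0) (𝓝 0) := by
    have : Tendsto (fun ρ : ℝ => C * ρ) (𝓝[>] 0) (𝓝 (C * 0)) := by
      apply Tendsto.mono_left _ nhdsWithin_le_nhds
      apply Continuous.tendsto
      fun_prop
    simpa using this
  have h2 : ‖g 0‖ ^ 2 ≤ 0 := by
    refine ge_of_tendsto h1 ?_
    filter_upwards [Ioo_mem_nhdsGT hε] with ρ hρ
    exact key ρ hρ.1 hρ.2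
  have h3 : 0 < ‖g 0‖ := norm_pos_iff.2 hg0
  nlinarith

end Pool.Agent.W737.Ell
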