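import Pool.Agent.W737.Ell.Defs

set_option autoImplicit false

namespace Pool.Agent.W737.Ell

open Filter Topology Set Metric

variable {k : ℕ}

theorem sum_erase_one (x : E (k + 2)) :
    ‖x‖ ^ 2 - ‖x 1‖ ^ 2 = ∑ i ∈ Finset.univ.erase (1 : Fin (k + 2)), ‖x i‖ ^ 2 := by
  rw [EuclideanSpace.norm_sq_eq, ← Finset.add_sum_erase Finset.univ _ (Finset.mem_univ (1 : Fin (k + 2)))]
  ring

theorem norm_one_le (x : E (k + 2)) : ‖x 1‖ ^ 2 ≤ ‖x‖ ^ 2 := by
  have h := sum_erase_one x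
  have : 0 ≤ ∑ i ∈ Finset.univ.erase (1 : Fin (k + 2)), ‖x i‖ ^ 2 :=
    Finset.sum_nonneg fun i _ => by positivity
  linarith

theorem rho_eq (x : E (k + 2)) :
    rho k x = ∑ i ∈ Finset.univ.erase (1 : Fin (k + 2)), ‖x i‖ ^ 2 + ‖x 1‖ ^ 4 - 1 := by
  rw [rho, sum_erase_one]

/-- Second coordinate as a real linear map. -/
noncomputable def P1 (k : ℕ) : E (k + 2) →L[ℝ] ℂ :=
  (EuclideanSpace.proj (1 : Fin (k + 2)) : E (k + 2) →L[ℂ] ℂ).restrictScalars ℝ

@[simp] theorem P1_apply (x : E (k + 2)) : P1 k x = x 1 := rfl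

theorem contDiff_rho : ContDiff ℝ (⊤ : ℕ∞) (rho k) := by
  have h1 : ContDiff ℝ (⊤ : ℕ∞) (fun x : E (k + 2) => ‖x‖ ^ 2) := contDiff_norm_sq ℝ
  have h2 : ContDiff ℝ (⊤ : ℕ∞) (fun x : E (k + 2) => ‖P1 k x‖ ^ 2) :=
    (contDiff_norm_sq ℝ).comp (P1 k).contDiff
  have h3 : rho k = fun x => ‖x‖ ^ 2 - ‖P1 k x‖ ^ 2 + (‖P1 k x‖ ^ 2) ^ 2 - 1 := by
    funext x
    simp only [rho, P1_apply]
    ring
  rw [h3]
  exact ((h1.sub h2).add (h2.pow 2)).sub contDiff_const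

theorem continuous_rho : Continuous (rho k) := contDiff_rho.continuous

/-- The first derivative. -/
theorem hasFDerivAt_rho (x : E (k + 2)) :
    HasFDerivAt (rho k) ((2 : ℝ) • innerSL ℝ x +
      (4 * ‖x 1‖ ^ 2 - 2) • (innerSL ℝ (P1 k x)).comp (P1 k)) x := by
  have h1 : HasFDerivAt (fun x : E (k + 2) => ‖x‖ ^ 2) (2 • innerSL ℝ x) x :=
    (hasStrictFDerivAt_norm_sq x).hasFDerivAt
  have h2 : HasFDerivAt (fun x : E (k + 2) => ‖P1 k x‖ ^ 2)
      ((2 • innerSL ℝ (P1 k x)).comp (P1 k)) x := by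
    have := (hasStrictFDerivAt_norm_sq (P1 k x)).hasFDerivAt.comp x (P1 k).hasFDerivAt
    exact this
  have h3 : rho k = fun x => ‖x‖ ^ 2 - ‖P1 k x‖ ^ 2 + (‖P1 k x‖ ^ 2) * (‖P1 k x‖ ^ 2) - 1 := by
    funext x
    simp only [rho, P1_apply]
    ring
  rw [h3]
  refine (((h1.sub h2).add (h2.mul h2)).sub_const 1).congr_fderiv ?_
  ext v
  simp
  ring

theorem fderiv_rho (x v : E (k + 2)) :
    fderiv ℝ (rho k) x v = 2 * inner ℝ x v + (4 * ‖x 1‖ ^ 2 - 2) * inner ℝ (x 1) (v 1) := by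
  rw [(hasFDerivAt_rho x).fderiv]
  simp

theorem fderiv_fderiv_rho (x v w : E (k + 2)) :
    fderiv ℝ (fderiv ℝ (rho k)) x v w = 2 * inner ℝ v w +
      (4 * ‖x 1‖ ^ 2 - 2) * inner ℝ (v 1) (w 1) + 8 * inner ℝ (x 1) (v 1) * inner ℝ (x 1) (w 1) := by
  have hd : DifferentiableAt ℝ (fderiv ℝ (rho k)) x := by
    have h2 : ContDiff ℝ 2 (rho k) := contDiff_rho.of_le (by
      have : (((2 : ℕ) : ℕ∞) : WithTop ℕ∞) ≤ ((⊤ : ℕ∞) : WithTop ℕ∞) := WithTop.coe_le_coe.2 le_top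
      simpa using this)
    have : ContDiff ℝ 1 (fderiv ℝ (rho k)) := h2.fderiv_right (by norm_num)
    exact (this.differentiable (by norm_num)).differentiableAt
  have h0 : fderiv ℝ (fun y => fderiv ℝ (rho k) y w) x v = fderiv ℝ (fderiv ℝ (rho k)) x v w := by
    have := (hd.hasFDerivAt.clm_apply (hasFDerivAt_const w x)).fderiv
    rw [this]
    simp
  rw [← h0]
  have h1 : HasFDerivAt (fun y : E (k + 2) => inner ℝ y w) ((innerSL ℝ).flip w) x := by
    exact ((innerSL ℝ).flip w).hasFDerivAt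
  have h2 : HasFDerivAt (fun y : E (k + 2) => inner ℝ (P1 k y) (w 1))
      (((innerSL ℝ).flip (w 1)).comp (P1 k)) x := by
    exact (((innerSL ℝ).flip (w 1)).comp (P1 k)).hasFDerivAt
  have h3 : HasFDerivAt (fun x : E (k + 2) => ‖P1 k x‖ ^ 2)
      ((2 • innerSL ℝ (P1 k x)).comp (P1 k)) x :=
    (hasStrictFDerivAt_norm_sq (P1 k x)).hasFDerivAt.comp x (P1 k).hasFDerivAt
  have h4 : (fun y => fderiv ℝ (rho k) y w) = fun y =>
      2 * inner ℝ y w + (4 * ‖P1 k y‖ ^ 2 - 2) * inner ℝ (P1 k y) (w 1) := by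
    funext y
    rw [fderiv_rho]
    rfl
  rw [h4]
  have h5 := (h1.const_mul 2).fun_add (((h3.const_mul 4).sub_const 2).fun_mul h2)
  rw [h5.fderiv]
  have e1 : ((innerSL ℝ).flip w) v = inner ℝ v w := rfl
  have e2 : ((innerSL ℝ).flip (w 1)) (v 1) = inner ℝ (v 1) (w 1) := rfl
  have e3 : (innerSL ℝ (x 1)) (v 1) = inner ℝ (x 1) (v 1) := rfl
  simp only [ContinuousLinearMap.add_apply, ContinuousLinearMap.smul_apply,
    ContinuousLinearMap.comp_apply, P1_apply, smul_eq_mul, e1, e2, e3, nsmul_eq_mul]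
  push_cast
  ring

theorem inner_I_sq (a b : ℂ) : (inner ℝ a b) ^ 2 + (inner ℝ a (Complex.I * b)) ^ 2 =
    ‖a‖ ^ 2 * ‖b‖ ^ 2 := by
  rw [Complex.inner, Complex.inner, ← Complex.normSq_eq_norm_sq, ← Complex.normSq_eq_norm_sq,
    Complex.normSq_apply, Complex.normSq_apply]
  simp
  ring

theorem levi_rho (x v : E (k + 2)) :
    levi (rho k) x v = 4 * (‖v‖ ^ 2 - ‖v 1‖ ^ 2) + 16 * ‖x 1‖ ^ 2 * ‖v 1‖ ^ 2 := by
  have h1 := inner_I_sq (x 1) (v 1)
  rw [levi, fderiv_fderiv_rho, fderiv_fderiv_rho]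
  have e1 : (Complex.I • v) 1 = Complex.I * v 1 := rfl
  have e2 : ∀ y : E (k + 2), inner ℝ y y = ‖y‖ ^ 2 := fun y => real_inner_self_eq_norm_sq y
  have e3 : ∀ y : ℂ, inner ℝ y y = ‖y‖ ^ 2 := fun y => real_inner_self_eq_norm_sq y
  rw [e1, e2, e2, e3, e3, norm_smul, norm_mul, Complex.norm_I, one_mul, one_mul]
  nlinarith [h1]

theorem levi_rho_nonneg (x v : E (k + 2)) : 0 ≤ levi (rho k) x v := by
  rw [levi_rho]
  have := norm_one_le v
  have h2 : 0 ≤ 16 * ‖x 1‖ ^ 2 * ‖v 1‖ ^ 2 := by positivity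
  linarith

theorem fderiv_rho_ne (x : E (k + 2)) (hx : x ≠ 0) : fderiv ℝ (rho k) x ≠ 0 := by
  intro h
  have h1 := fderiv_rho x x
  rw [h] at h1
  rw [real_inner_self_eq_norm_sq, real_inner_self_eq_norm_sq] at h1
  have h2 := norm_one_le x
  have h3 : (0 : ℝ) = 2 * (‖x‖ ^ 2 - ‖x 1‖ ^ 2) + 4 * ‖x 1‖ ^ 4 := by
    have : ((0 : E (k + 2) →L[ℝ] ℝ) x) = 0 := rfl
    rw [this] at h1
    linarith [h1]
  have h4 : 0 ≤ ‖x 1‖ ^ 4 := by positivity
  have h5 : ‖x 1‖ ^ 4 = 0 := by linarith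
  have h6 : ‖x 1‖ = 0 := by
    exact pow_eq_zero_iff (by norm_num) |>.1 h5
  have h7 : ‖x‖ ^ 2 = 0 := by
    rw [h6] at h3
    nlinarith
  exact hx (norm_eq_zero.1 (pow_eq_zero_iff (by norm_num) |>.1 h7))

theorem isOpen_dom : IsOpen (dom k) := isOpen_lt continuous_rho continuous_const

theorem convexOn_rho : ConvexOn ℝ Set.univ (rho k) := by
  have h1 : ∀ i : Fin (k + 2), ∀ m : ℕ, ConvexOn ℝ Set.univ (fun x : E (k + 2) => ‖x i‖ ^ m) := by
    intro i m
    have h2 : ConvexOn ℝ Set.univ (fun x : E (k + 2) => ‖x i‖) := by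
      refine ⟨convex_univ, fun x _ y _ a b ha hb hab => ?_⟩
      have : (a • x + b • y) i = (a : ℂ) * x i + (b : ℂ) * y i := by
        simp
      change ‖(a • x + b • y) i‖ ≤ a • ‖x i‖ + b • ‖y i‖
      rw [this]
      refine (norm_add_le _ _).trans ?_
      rw [norm_mul, norm_mul, Complex.norm_real, Complex.norm_real, Real.norm_of_nonneg ha,
        Real.norm_of_nonneg hb]
      rfl
    exact h2.pow (fun x _ => norm_nonneg _) m
  have h3 : rho k = fun x => (∑ i ∈ Finset.univ.erase (1 : Fin (k + 2)), ‖x i‖ ^ 2 + ‖x 1‖ ^ 4) + (-1) := by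
    funext x
    rw [rho_eq]
    ring
  rw [h3]
  refine ConvexOn.add_const (ConvexOn.add ?_ (h1 1 4)) (-1)
  have h4 : ∀ s : Finset (Fin (k + 2)), ConvexOn ℝ Set.univ (fun x : E (k + 2) => ∑ i ∈ s, ‖x i‖ ^ 2) := by
    intro s
    classical
    induction s using Finset.induction_on with
    | empty => simpa using convexOn_const (0 : ℝ) (convex_univ (𝕜 := ℝ) (E := E (k + 2)))
    | insert a s ha ih =>
      simp only [Finset.sum_insert ha]
      exact (h1 a 2).add ih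
  exact h4 _

theorem convex_dom : Convex ℝ (dom k) := by
  have := (convexOn_rho (k := k)).convex_lt 0
  simpa [dom] using this

theorem zero_mem_dom : (0 : E (k + 2)) ∈ dom k := by
  simp [dom, rho]

theorem isConnected_dom : IsConnected (dom k) :=
  ⟨⟨0, zero_mem_dom⟩, convex_dom.isPreconnected⟩

theorem norm_sq_lt_of_mem {x : E (k + 2)} (hx : x ∈ dom k) : ‖x‖ ^ 2 < 2 := by
  have h : rho k x < 0 := hx
  rw [rho] at h
  nlinarith [sq_nonneg (‖x 1‖ ^ 2 - 1 / 2), norm_one_le x, sq_nonneg (‖x 1‖ ^ 2)]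

theorem isBounded_dom : Bornology.IsBounded (dom k) := by
  apply (Metric.isBounded_ball (x := (0 : E (k + 2))) (r := 2)).subset
  intro x hx
  rw [mem_ball_zero_iff]
  have := norm_sq_lt_of_mem hx
  nlinarith [norm_nonneg x]

/-- The boundary point. -/
noncomputable def pt (k : ℕ) : E (k + 2) := EuclideanSpace.single 0 1

theorem pt_zero : (pt k) 0 = 1 := by simp [pt]

theorem pt_one : (pt k) 1 = 0 := by simp [pt]

theorem norm_pt : ‖pt k‖ = 1 := by simp [pt]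

theorem rho_pt : rho k (pt k) = 0 := by
  rw [rho, norm_pt, pt_one]
  simp

/-- Curve inside the domain. -/
theorem pt_mem_frontier : pt k ∈ frontier (dom k) := by
  rw [frontier, isOpen_dom.interior_eq]
  refine ⟨?_, ?_⟩
  · have h1 : Tendsto (fun s : ℝ => ((s : ℂ)) • pt k) (𝓝[<] 1) (𝓝 (pt k)) := by
      have : Tendsto (fun s : ℝ => ((s : ℂ)) • pt k) (𝓝[<] 1) (𝓝 (((1 : ℝ) : ℂ) • pt k)) := by
        apply Tendsto.mono_left _ nhdsWithin_le_nhds
        apply Continuous.tendsto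
        fun_prop
      simpa using this
    refine mem_closure_of_tendsto h1 ?_
    filter_upwards [Ioo_mem_nhdsLT (show (0 : ℝ) < 1 by norm_num)] with s hs
    change rho k _ < 0
    rw [rho, norm_smul, norm_pt, Complex.norm_real, Real.norm_of_nonneg hs.1.le]
    have : ((s : ℂ) • pt k) 1 = 0 := by
      simp [pt_one]
    rw [this]
    have h1 := hs.1
    have h2 := hs.2
    simp only [norm_zero, mul_one]
    nlinarith
  · intro h
    have h' : rho k (pt k) < 0 := h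
    rw [rho_pt] at h'
    exact lt_irrefl _ h'

theorem isLocalDefining_rho : IsLocalDefining (dom k) (pt k) {x | x ≠ 0} (rho k) := by
  refine ⟨pt_mem_frontier, isOpen_ne, ?_, contDiff_rho.contDiffOn, fun x hx => fderiv_rho_ne x hx, ?_⟩
  · intro h
    have := norm_pt (k := k)
    rw [h] at this
    simp at this
  · ext x
    simp only [dom, mem_inter_iff, mem_ofPred_eq]
    tauto

end Pool.Agent.W737.Ell
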