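import Pool.Agent.W737.Ell.Aut

set_option autoImplicit false

namespace Pool.Agent.W737.Ell

open Filter Topology Set Metric

variable {k : ℕ}

theorem squeezing_set_le {n : ℕ} (hn : 0 < n) (D : Set (E n)) (z : E n) {r : ℝ}
    (hr : 0 < r ∧ ∃ F : E n → E n, DifferentiableOn ℂ F D ∧ InjOn F D ∧
      MapsTo F D (ball 0 1) ∧ F z = 0 ∧ ball 0 r ⊆ F '' D) : r ≤ 1 := by
  obtain ⟨_, F, _, _, hm, _, hsub⟩ := hr
  by_contra hcon
  push Not at hcon
  let e : E n := EuclideanSpace.single (⟨0, hn⟩ : Fin n) 1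
  have he : ‖e‖ = 1 := by simp [e]
  have h1 : e ∈ ball (0 : E n) r := by
    rw [mem_ball_zero_iff, he]; exact hcon
  obtain ⟨x, hx, hxe⟩ := hsub h1
  have h2 := hm hx
  rw [hxe, mem_ball_zero_iff, he] at h2
  exact lt_irrefl _ h2

theorem squeezing_le_one {n : ℕ} (hn : 0 < n) (D : Set (E n)) (z : E n) : squeezing D z ≤ 1 := by
  unfold squeezing
  apply Real.sSup_le
  · intro r hr
    exact squeezing_set_le hn D z hr
  · norm_num

theorem le_squeezing {n : ℕ} (hn : 0 < n) (D : Set (E n)) (z : E n) {r : ℝ} (hr0 : 0 < r)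
    {F : E n → E n} (h1 : DifferentiableOn ℂ F D) (h2 : InjOn F D)
    (h3 : MapsTo F D (ball 0 1)) (h4 : F z = 0) (h5 : ball 0 r ⊆ F '' D) : r ≤ squeezing D z := by
  unfold squeezing
  apply le_csSup
  · exact ⟨1, fun r hr => squeezing_set_le hn D z hr⟩
  · exact ⟨hr0, F, h1, h2, h3, h4, h5⟩

/-- Base point on the `w`-axis. -/
noncomputable def bp (k : ℕ) (s : ℝ) : E (k + 2) :=
  EuclideanSpace.single 1 (((1 - 3 * s ^ 2) / (1 + s ^ 2) : ℝ) : ℂ)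

theorem bp_one (s : ℝ) : bp k s 1 = (((1 - 3 * s ^ 2) / (1 + s ^ 2) : ℝ) : ℂ) := by simp [bp]

theorem bp_ne (s : ℝ) {i : Fin (k + 2)} (hi : i ≠ 1) : bp k s i = 0 := by simp [bp, hi]

theorem bp_sub (s : ℝ) : (1 - bp k s 1) = 4 * (s : ℂ) ^ 2 / (1 + (s : ℂ) ^ 2) := by
  rw [bp_one]
  have : (1 + (s : ℂ) ^ 2) ≠ 0 := by
    have h3 : ((1 + s ^ 2 : ℝ) : ℂ) ≠ 0 := by
      exact_mod_cast (by positivity : (1 + s ^ 2 : ℝ) ≠ 0)
    push_cast at h3
    exact h3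
  push_cast
  field_simp
  ring

theorem norm_bp {s : ℝ} (hs0 : 0 < s) (hs1 : s < 1 / 2) : ‖bp k s 1‖ < 1 := by
  rw [bp_one, Complex.norm_real, Real.norm_eq_abs, abs_lt]
  have h3 : 0 < s ^ 2 := by positivity
  have h4 : s ^ 2 < 1 / 4 := by nlinarith
  constructor
  · have : 0 < (1 - 3 * s ^ 2) / (1 + s ^ 2) := div_pos (by linarith) (by linarith)
    linarith
  · rw [div_lt_one (by linarith)]
    linarith

theorem bp_mem {s : ℝ} (hs0 : 0 < s) (hs1 : s < 1 / 2) : bp k s ∈ dom k := by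
  change rho k _ < 0
  have h1 : ‖bp k s‖ ^ 2 - ‖bp k s 1‖ ^ 2 = 0 := by
    rw [sum_erase_one]
    apply Finset.sum_eq_zero
    intro i hi
    rw [bp_ne s (Finset.ne_of_mem_erase hi)]
    simp
  rw [rho, h1]
  have h2 := norm_bp (k := k) hs0 hs1
  have h3 : ‖bp k s 1‖ ^ 4 < 1 := pow_lt_one₀ (norm_nonneg _) h2 (by norm_num)
  linarith

theorem Fm_bp (s : ℝ) : Fm k s (bp k s) = 0 := by
  ext i
  by_cases hi : i = 1
  · subst hi
    rw [Fm_one, bp_sub]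
    have : (1 + (s : ℂ) ^ 2) ≠ 0 := by
      have h3 : ((1 + s ^ 2 : ℝ) : ℂ) ≠ 0 := by
        exact_mod_cast (by positivity : (1 + s ^ 2 : ℝ) ≠ 0)
      push_cast at h3
      exact h3
    have h4 : 4 * (s : ℂ) ^ 2 - (1 + (s : ℂ) ^ 2) * (4 * (s : ℂ) ^ 2 / (1 + (s : ℂ) ^ 2)) = 0 := by
      field_simp
      ring
    rw [h4, zero_div]
    rfl
  · rw [Fm_ne s _ hi, bp_ne s hi]
    simp

/-- The squeezing function at points of the orbit of `bp`. -/
theorem squeezing_orbit {s a β : ℝ} (hs0 : 0 < s) (hs1 : s ≤ 1 / 6) (hβ : 0 < β) (ha0 : 0 < a)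
    (ha1 : a < 1) (ha : a ^ 2 = 1 - β ^ 4) :
    1 - 20 * s ^ 2 ≤ squeezing (dom k) (Bu k a β (bp k s)) := by
  have hs1' : s < 1 := by linarith
  have hpos : 0 < 1 - 20 * s ^ 2 := by nlinarith
  obtain ⟨hP, hAP⟩ := surj_Au hβ ha0 ha1 ha (bp_mem (k := k) hs0 (by linarith))
  refine le_squeezing (by omega) (dom k) _ hpos (F := Fm k s ∘ Au k a β) ?_ ?_ ?_ ?_ ?_
  · exact (differentiableOn_Fm hs0 hs1').comp (differentiableOn_Au ha0 ha1)
      (mapsTo_Au hβ ha0 ha1 ha)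
  · exact (injOn_Fm hs0 hs1').comp (injOn_Au hβ ha0 ha1) (mapsTo_Au hβ ha0 ha1 ha)
  · exact (mapsTo_Fm hs0 hs1').comp (mapsTo_Au hβ ha0 ha1 ha)
  · rw [Function.comp_apply, hAP, Fm_bp]
  · intro b hb
    rw [mem_ball_zero_iff] at hb
    have h1 : ‖b‖ ^ 2 < 1 - 20 * s ^ 2 := by nlinarith [norm_nonneg b]
    obtain ⟨y, hy, hyb⟩ := surj_Fm hs0 hs1' h1
    obtain ⟨hx, hxy⟩ := surj_Au hβ ha0 ha1 ha hy
    exact ⟨Bu k a β y, hx, by rw [Function.comp_apply, hxy, hyb]⟩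

theorem Bu_bp {s a β : ℝ} : Bu k a β (bp k s) =
    EuclideanSpace.single 0 (a : ℂ) + EuclideanSpace.single 1 (qr a a * bp k s 1 / β) := by
  ext i
  by_cases hi0 : i = 0
  · subst hi0
    simp [Bu, bp]
  · by_cases hi1 : i = 1
    · subst hi1
      simp [Bu, bp]
    · simp [Bu, bp, hi0, hi1]

theorem dist_Bu_bp {s a β : ℝ} (hs0 : 0 < s) (hs1 : s < 1 / 2) (hβ : 0 < β) (hβ1 : β < 1)
    (ha0 : 0 < a) (ha1 : a < 1) (ha : a ^ 2 = 1 - β ^ 4) :
    dist (Bu k a β (bp k s)) (pt k) ≤ 2 * β := by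
  have hne := one_sub_ne ha0 ha1 (z := a) (by rwa [Complex.norm_real, Real.norm_of_nonneg ha0.le])
  rw [dist_eq_norm, Bu_bp, pt]
  have h1 : (EuclideanSpace.single 0 (a : ℂ) + EuclideanSpace.single 1 (qr a a * bp k s 1 / β) -
      EuclideanSpace.single 0 1 : E (k + 2)) = EuclideanSpace.single 0 ((a : ℂ) - 1) +
      EuclideanSpace.single 1 (qr a a * bp k s 1 / β) := by
    ext i
    simp
    split_ifs <;> ring
  rw [h1]
  refine (norm_add_le _ _).trans ?_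
  rw [EuclideanSpace.norm_single, EuclideanSpace.norm_single]
  have h2 : ‖(a : ℂ) - 1‖ = 1 - a := by
    have : (a : ℂ) - 1 = ((a - 1 : ℝ) : ℂ) := by push_cast; ring
    rw [this, Complex.norm_real, Real.norm_eq_abs, abs_of_neg (by linarith)]
    ring
  have h3 : ‖qr a a‖ = β ^ 2 := by
    have h4 := norm_qr_sq a a hne
    have h5 : (1 - (a : ℂ) * a) = ((β ^ 4 : ℝ) : ℂ) := by
      have : β ^ 4 = 1 - a ^ 2 := by linarith
      rw [this]
      push_cast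
      ring
    rw [h5, Complex.norm_real, Real.norm_of_nonneg (by positivity)] at h4
    have h6 : (‖qr a a‖ - β ^ 2) * (‖qr a a‖ + β ^ 2) = 0 := by nlinarith
    rcases mul_eq_zero.1 h6 with h | h
    · linarith
    · have := norm_nonneg (qr a a)
      have : 0 < β ^ 2 := by positivity
      linarith
  rw [h2, norm_div, norm_mul, h3, Complex.norm_real, Real.norm_of_nonneg hβ.le]
  have h4 := norm_bp (k := k) hs0 hs1
  have h5 : β ^ 2 * ‖bp k s 1‖ / β ≤ β := by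
    rw [div_le_iff₀ hβ]
    nlinarith [sq_nonneg β]
  have h6 : 1 - a ≤ β := by
    have h7 : 1 - a ≤ β ^ 4 := by nlinarith
    have h8 : β ^ 4 ≤ β := by
      have := pow_le_pow_of_le_one hβ.le hβ1.le (show 1 ≤ 4 by norm_num)
      simpa using this
    linarith
  linarith

/-- The sequence. -/
theorem exists_seq (k : ℕ) : ∃ z : ℕ → E (k + 2), (∀ ν, z ν ∈ dom k) ∧
    Tendsto z atTop (𝓝 (pt k)) ∧ Tendsto (fun ν => squeezing (dom k) (z ν)) atTop (𝓝 1) := by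
  let β : ℕ → ℝ := fun ν => 1 / ((ν : ℝ) + 6)
  let a : ℕ → ℝ := fun ν => Real.sqrt (1 - β ν ^ 4)
  have hβ0 : ∀ ν, 0 < β ν := fun ν => by positivity
  have hβ6 : ∀ ν, β ν ≤ 1 / 6 := by
    intro ν
    apply one_div_le_one_div_of_le (by norm_num)
    have : (0 : ℝ) ≤ ν := Nat.cast_nonneg ν
    linarith
  have hβ1 : ∀ ν, β ν < 1 := fun ν => (hβ6 ν).trans_lt (by norm_num)
  have hβ4 : ∀ ν, β ν ^ 4 < 1 := fun ν => pow_lt_one₀ (hβ0 ν).le (hβ1 ν) (by norm_num)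
  have hβ4' : ∀ ν, 0 < β ν ^ 4 := fun ν => by have := hβ0 ν; positivity
  have ha : ∀ ν, a ν ^ 2 = 1 - β ν ^ 4 := fun ν => Real.sq_sqrt (by have := hβ4 ν; linarith)
  have ha0 : ∀ ν, 0 < a ν := fun ν => Real.sqrt_pos.2 (by have := hβ4 ν; linarith)
  have ha1 : ∀ ν, a ν < 1 := by
    intro ν
    have h1 := ha ν
    have h2 := hβ4' ν
    have h3 := ha0 ν
    nlinarith
  have hβt : Tendsto β atTop (𝓝 0) := by
    have h1 : Tendsto (fun ν : ℕ => (ν : ℝ) + 6) atTop atTop :=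
      tendsto_atTop_add_const_right _ _ tendsto_natCast_atTop_atTop
    exact h1.const_div_atTop 1
  refine ⟨fun ν => Bu k (a ν) (β ν) (bp k (β ν)), ?_, ?_, ?_⟩
  · intro ν
    exact (surj_Au (hβ0 ν) (ha0 ν) (ha1 ν) (ha ν)
      (bp_mem (hβ0 ν) ((hβ6 ν).trans_lt (by norm_num)))).1
  · rw [tendsto_iff_dist_tendsto_zero]
    refine squeeze_zero (fun _ => dist_nonneg) (fun ν => dist_Bu_bp (hβ0 ν)
      ((hβ6 ν).trans_lt (by norm_num)) (hβ0 ν) (hβ1 ν) (ha0 ν) (ha1 ν) (ha ν)) ?_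
    simpa using hβt.const_mul 2
  · have h1 : Tendsto (fun ν => 1 - 20 * β ν ^ 2) atTop (𝓝 1) := by
      have := ((hβt.pow 2).const_mul 20).const_sub 1
      simpa using this
    refine tendsto_of_tendsto_of_tendsto_of_le_of_le h1 tendsto_const_nhds ?_ ?_
    · intro ν
      exact squeezing_orbit (hβ0 ν) (hβ6 ν) (hβ0 ν) (ha0 ν) (ha1 ν) (ha ν)
    · intro ν
      exact squeezing_le_one (by omega) _ _

end Pool.Agent.W737.Ell
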