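import Pool.Agent.W737.Ell.Geom

set_option autoImplicit false

namespace Pool.Agent.W737.Ell

open Filter Topology Set Metric

variable {k : ℕ}

theorem norm_one_lt_of_mem {x : E (k + 2)} (hx : x ∈ dom k) : ‖x 1‖ < 1 := by
  have h : rho k x < 0 := hx
  rw [rho] at h
  have h1 := norm_one_le x
  have h2 : ‖x 1‖ ^ 4 < 1 := by linarith
  by_contra hcon
  push Not at hcon
  have : (1 : ℝ) ≤ ‖x 1‖ ^ 4 := one_le_pow₀ hcon
  linarith

theorem norm_zero_lt_of_mem {x : E (k + 2)} (hx : x ∈ dom k) : ‖x 0‖ < 1 := by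
  have h : rho k x < 0 := hx
  rw [rho_eq] at h
  have h1 : ‖x 0‖ ^ 2 ≤ ∑ i ∈ Finset.univ.erase (1 : Fin (k + 2)), ‖x i‖ ^ 2 := by
    refine Finset.single_le_sum (f := fun i => ‖x i‖ ^ 2) (fun i _ => by positivity) ?_
    simp
  have h2 : 0 ≤ ‖x 1‖ ^ 4 := by positivity
  have h3 : ‖x 0‖ ^ 2 < 1 := by linarith
  by_contra hcon
  push Not at hcon
  have : (1 : ℝ) ≤ ‖x 0‖ ^ 2 := one_le_pow₀ hcon
  linarith

/-- The linear fractional map. -/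
noncomputable def Fm (k : ℕ) (s : ℝ) (x : E (k + 2)) : E (k + 2) :=
  WithLp.toLp 2 fun i => if i = 1 then
    (4 * (s : ℂ) ^ 2 - (1 + (s : ℂ) ^ 2) * (1 - x 1)) / (4 * (s : ℂ) ^ 2 + (1 - (s : ℂ) ^ 2) * (1 - x 1))
    else 2 * s * x i / (4 * (s : ℂ) ^ 2 + (1 - (s : ℂ) ^ 2) * (1 - x 1))

theorem Fm_one (s : ℝ) (x : E (k + 2)) : Fm k s x 1 =
    (4 * (s : ℂ) ^ 2 - (1 + (s : ℂ) ^ 2) * (1 - x 1)) / (4 * (s : ℂ) ^ 2 + (1 - (s : ℂ) ^ 2) * (1 - x 1)) := by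
  simp [Fm]

theorem Fm_ne (s : ℝ) (x : E (k + 2)) {i : Fin (k + 2)} (hi : i ≠ 1) : Fm k s x i =
    2 * s * x i / (4 * (s : ℂ) ^ 2 + (1 - (s : ℂ) ^ 2) * (1 - x 1)) := by
  simp [Fm, hi]

theorem den_re_pos {s : ℝ} (hs0 : 0 < s) (hs1 : s < 1) {w : ℂ} (hw : ‖w‖ < 1) :
    0 < (4 * (s : ℂ) ^ 2 + (1 - (s : ℂ) ^ 2) * (1 - w)).re := by
  have h1 : (4 * (s : ℂ) ^ 2 + (1 - (s : ℂ) ^ 2) * (1 - w)) =
      ((4 * s ^ 2 + (1 - s ^ 2) : ℝ) : ℂ) - ((1 - s ^ 2 : ℝ) : ℂ) * w := by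
    push_cast
    ring
  rw [h1, Complex.sub_re, Complex.ofReal_re, Complex.re_ofReal_mul]
  have h2 : w.re < 1 := (Complex.re_le_norm w).trans_lt hw
  have h3 : 0 < 1 - s ^ 2 := by nlinarith
  nlinarith

theorem den_ne {s : ℝ} (hs0 : 0 < s) (hs1 : s < 1) {w : ℂ} (hw : ‖w‖ < 1) :
    (4 * (s : ℂ) ^ 2 + (1 - (s : ℂ) ^ 2) * (1 - w)) ≠ 0 := by
  intro h
  have := den_re_pos hs0 hs1 hw
  rw [h] at this
  simp at this

theorem norm_sq_Fm (s : ℝ) (x : E (k + 2)) : ‖Fm k s x‖ ^ 2 =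
    (‖4 * (s : ℂ) ^ 2 - (1 + (s : ℂ) ^ 2) * (1 - x 1)‖ ^ 2 + 4 * s ^ 2 * (‖x‖ ^ 2 - ‖x 1‖ ^ 2)) /
      ‖4 * (s : ℂ) ^ 2 + (1 - (s : ℂ) ^ 2) * (1 - x 1)‖ ^ 2 := by
  have h1 := sum_erase_one (Fm k s x)
  have h2 : ∑ i ∈ Finset.univ.erase (1 : Fin (k + 2)), ‖Fm k s x i‖ ^ 2 =
      4 * s ^ 2 * (∑ i ∈ Finset.univ.erase (1 : Fin (k + 2)), ‖x i‖ ^ 2) /
      ‖4 * (s : ℂ) ^ 2 + (1 - (s : ℂ) ^ 2) * (1 - x 1)‖ ^ 2 := by
    rw [Finset.mul_sum, Finset.sum_div]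
    refine Finset.sum_congr rfl fun i hi => ?_
    rw [Fm_ne s x (Finset.ne_of_mem_erase hi), norm_div, div_pow, norm_mul, norm_mul,
      Complex.norm_real, Complex.norm_ofNat, mul_pow, mul_pow, Real.norm_eq_abs, sq_abs]
    norm_num
  have h3 : ‖Fm k s x‖ ^ 2 = ‖Fm k s x 1‖ ^ 2 +
      ∑ i ∈ Finset.univ.erase (1 : Fin (k + 2)), ‖Fm k s x i‖ ^ 2 := by linarith
  rw [h3, h2, Fm_one, norm_div, div_pow, sum_erase_one x]
  ring

/-- Key algebraic identity. -/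
theorem key_identity (s : ℝ) (u : ℂ) :
    ‖4 * (s : ℂ) ^ 2 + (1 - (s : ℂ) ^ 2) * u‖ ^ 2 - ‖4 * (s : ℂ) ^ 2 - (1 + (s : ℂ) ^ 2) * u‖ ^ 2 =
      4 * s ^ 2 * (4 * u.re - ‖u‖ ^ 2) := by
  rw [← Complex.normSq_eq_norm_sq, ← Complex.normSq_eq_norm_sq, ← Complex.normSq_eq_norm_sq]
  have e1 : (4 * (s : ℂ) ^ 2 + (1 - (s : ℂ) ^ 2) * u) =
      ((4 * s ^ 2 : ℝ) : ℂ) + ((1 - s ^ 2 : ℝ) : ℂ) * u := by push_cast; ring
  have e2 : (4 * (s : ℂ) ^ 2 - (1 + (s : ℂ) ^ 2) * u) =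
      ((4 * s ^ 2 : ℝ) : ℂ) - ((1 + s ^ 2 : ℝ) : ℂ) * u := by push_cast; ring
  rw [e1, e2, Complex.normSq_apply, Complex.normSq_apply, Complex.normSq_apply]
  simp only [Complex.add_re, Complex.sub_re, Complex.add_im, Complex.sub_im, Complex.ofReal_re,
    Complex.ofReal_im, Complex.re_ofReal_mul, Complex.im_ofReal_mul]
  ring

/-- `D ⊆ B₁`. -/
theorem upper_ball {x : E (k + 2)} (hx : x ∈ dom k) :
    ‖x‖ ^ 2 - ‖x 1‖ ^ 2 < 4 * (1 - x 1).re - ‖1 - x 1‖ ^ 2 := by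
  have h : rho k x < 0 := hx
  rw [rho] at h
  have h1 : ‖x 1‖ ^ 2 = 1 - 2 * (1 - x 1).re + ‖1 - x 1‖ ^ 2 := by
    rw [← Complex.normSq_eq_norm_sq, ← Complex.normSq_eq_norm_sq, Complex.normSq_apply,
      Complex.normSq_apply]
    simp
    ring
  have h2 : ‖x 1‖ ^ 4 = (1 - 2 * (1 - x 1).re + ‖1 - x 1‖ ^ 2) ^ 2 := by
    rw [← h1]; ring
  have h3 : ‖x‖ ^ 2 - ‖x 1‖ ^ 2 < 1 - (1 - 2 * (1 - x 1).re + ‖1 - x 1‖ ^ 2) ^ 2 := by
    rw [← h2]; linarith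
  have h4 : 0 ≤ ‖1 - x 1‖ ^ 2 := by positivity
  nlinarith [sq_nonneg (‖1 - x 1‖ ^ 2 - 2 * (1 - x 1).re)]

theorem mapsTo_Fm {s : ℝ} (hs0 : 0 < s) (hs1 : s < 1) : MapsTo (Fm k s) (dom k) (ball 0 1) := by
  intro x hx
  rw [mem_ball_zero_iff]
  have h1 := norm_sq_Fm s x
  have h2 := key_identity s (1 - x 1)
  have h3 := upper_ball hx
  have h4 : 0 < ‖4 * (s : ℂ) ^ 2 + (1 - (s : ℂ) ^ 2) * (1 - x 1)‖ ^ 2 := by
    have := norm_pos_iff.2 (den_ne hs0 hs1 (norm_one_lt_of_mem hx))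
    positivity
  have h5 : ‖Fm k s x‖ ^ 2 < 1 := by
    rw [h1, div_lt_one h4]
    have : 0 < 4 * s ^ 2 := by positivity
    nlinarith
  nlinarith [norm_nonneg (Fm k s x)]

theorem differentiableOn_Fm {s : ℝ} (hs0 : 0 < s) (hs1 : s < 1) :
    DifferentiableOn ℂ (Fm k s) (dom k) := by
  rw [differentiableOn_euclidean]
  intro i
  have hc : ∀ j : Fin (k + 2), DifferentiableOn ℂ (fun x : E (k + 2) => x j) (dom k) := by
    intro j
    exact (EuclideanSpace.proj j : E (k + 2) →L[ℂ] ℂ).differentiable.differentiableOn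
  have hd : DifferentiableOn ℂ (fun x : E (k + 2) =>
      (4 * (s : ℂ) ^ 2 + (1 - (s : ℂ) ^ 2) * (1 - x 1))) (dom k) := by
    have := hc 1
    fun_prop
  have hne : ∀ x ∈ dom k, (4 * (s : ℂ) ^ 2 + (1 - (s : ℂ) ^ 2) * (1 - x 1)) ≠ 0 :=
    fun x hx => den_ne hs0 hs1 (norm_one_lt_of_mem hx)
  by_cases hi : i = 1
  · subst hi
    simp only [Fm_one, div_eq_mul_inv]
    refine DifferentiableOn.fun_mul ?_ (hd.fun_inv hne)
    have := hc 1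
    fun_prop
  · simp only [Fm_ne s _ hi, div_eq_mul_inv]
    refine DifferentiableOn.fun_mul ?_ (hd.fun_inv hne)
    have := hc i
    fun_prop

theorem injOn_Fm {s : ℝ} (hs0 : 0 < s) (hs1 : s < 1) : InjOn (Fm k s) (dom k) := by
  intro x hx y hy hxy
  have hdx := den_ne hs0 hs1 (norm_one_lt_of_mem hx)
  have hdy := den_ne hs0 hs1 (norm_one_lt_of_mem hy)
  have hs : (s : ℂ) ≠ 0 := by exact_mod_cast hs0.ne'
  have h1 : x 1 = y 1 := by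
    have h2 : Fm k s x 1 = Fm k s y 1 := by rw [hxy]
    rw [Fm_one, Fm_one, div_eq_div_iff hdx hdy] at h2
    have h3 : 8 * (s : ℂ) ^ 2 * (x 1 - y 1) = 0 := by linear_combination h2
    have h4 : 8 * (s : ℂ) ^ 2 ≠ 0 := by
      refine mul_ne_zero (by norm_num) (pow_ne_zero _ hs)
    exact sub_eq_zero.1 ((mul_eq_zero.1 h3).resolve_left h4)
  ext i
  by_cases hi : i = 1
  · rw [hi, h1]
  · have h2 : Fm k s x i = Fm k s y i := by rw [hxy]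
    rw [Fm_ne s x hi, Fm_ne s y hi, ← h1, div_left_inj' hdx] at h2
    exact mul_left_cancel₀ (mul_ne_zero (by norm_num) hs) h2

/-- `B₆ ⊆ D`. -/
theorem mem_dom_of_lower {x : E (k + 2)}
    (hx : ‖x‖ ^ 2 - ‖x 1‖ ^ 2 < 4 * (1 - x 1).re - 6 * ‖1 - x 1‖ ^ 2) : x ∈ dom k := by
  have h0 := norm_one_le x
  have h1 : ‖x 1‖ ^ 2 = 1 - 2 * (1 - x 1).re + ‖1 - x 1‖ ^ 2 := by
    rw [← Complex.normSq_eq_norm_sq, ← Complex.normSq_eq_norm_sq, Complex.normSq_apply,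
      Complex.normSq_apply]
    simp
    ring
  have h2 : ‖x 1‖ ^ 4 = (1 - 2 * (1 - x 1).re + ‖1 - x 1‖ ^ 2) ^ 2 := by
    rw [← h1]; ring
  change rho k x < 0
  rw [rho, h2]
  have h3 : (1 - x 1).re ^ 2 ≤ ‖1 - x 1‖ ^ 2 := by
    have := Complex.abs_re_le_norm (1 - x 1)
    rw [← sq_abs]
    gcongr
  generalize (1 - x 1).re = X at *
  generalize ‖1 - x 1‖ ^ 2 = S at *
  have h4 : 0 ≤ S := (sq_nonneg X).trans h3
  have h5 : 6 * S < 4 * X := by linarith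
  have h6 : 0 ≤ S * (4 * X - S) := mul_nonneg h4 (by linarith)
  nlinarith

theorem surj_Fm {s : ℝ} (hs0 : 0 < s) (hs1 : s < 1) {b : E (k + 2)} (hb : ‖b‖ ^ 2 < 1 - 20 * s ^ 2) :
    b ∈ Fm k s '' dom k := by
  have hs : (s : ℂ) ≠ 0 := by exact_mod_cast hs0.ne'
  have hb1 : ‖b 1‖ < 1 := by
    have h1 := norm_one_le b
    nlinarith [norm_nonneg (b 1), sq_nonneg s]
  -- the denominator
  set N : ℂ := (1 + (s : ℂ) ^ 2) + b 1 * (1 - (s : ℂ) ^ 2) with hN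
  have hN0 : N ≠ 0 := by
    intro h
    have h1 : (1 + s ^ 2 : ℝ) = ‖b 1‖ * (1 - s ^ 2) := by
      have h2 : ((1 + s ^ 2 : ℝ) : ℂ) = -(b 1 * ((1 - s ^ 2 : ℝ) : ℂ)) := by
        push_cast
        linear_combination h
      have h3 := congrArg norm h2
      rw [norm_neg, norm_mul, Complex.norm_real, Complex.norm_real,
        Real.norm_of_nonneg (by positivity), Real.norm_of_nonneg (by nlinarith)] at h3
      exact h3
    have h3 : 0 < 1 - s ^ 2 := by nlinarith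
    nlinarith [sq_nonneg s]
  have hNpos : 0 < ‖N‖ ^ 2 := by
    have := norm_pos_iff.2 hN0
    positivity
  let x : E (k + 2) := WithLp.toLp 2 fun i => if i = 1 then 1 - 4 * (s : ℂ) ^ 2 * (1 - b 1) / N
    else 4 * s * b i / N
  have hx1 : x 1 = 1 - 4 * (s : ℂ) ^ 2 * (1 - b 1) / N := by simp [x]
  have hxi : ∀ i, i ≠ 1 → x i = 4 * s * b i / N := by
    intro i hi
    simp [x, hi]
  have hu : 1 - x 1 = 4 * (s : ℂ) ^ 2 * (1 - b 1) / N := by rw [hx1]; ring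
  have hD : 4 * (s : ℂ) ^ 2 + (1 - (s : ℂ) ^ 2) * (1 - x 1) = 8 * (s : ℂ) ^ 2 / N := by
    rw [hu]
    field_simp
    rw [hN]
    ring
  refine ⟨x, ?_, ?_⟩
  · apply mem_dom_of_lower
    have h1 : ‖x‖ ^ 2 - ‖x 1‖ ^ 2 = 16 * s ^ 2 * (‖b‖ ^ 2 - ‖b 1‖ ^ 2) / ‖N‖ ^ 2 := by
      rw [sum_erase_one, sum_erase_one, Finset.mul_sum, Finset.sum_div]
      refine Finset.sum_congr rfl fun i hi => ?_
      rw [hxi i (Finset.ne_of_mem_erase hi), norm_div, div_pow, norm_mul, norm_mul,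
        Complex.norm_real, Complex.norm_ofNat, mul_pow, mul_pow, Real.norm_eq_abs, sq_abs]
      norm_num
    have h2 : ‖1 - x 1‖ ^ 2 = 16 * s ^ 4 * ‖1 - b 1‖ ^ 2 / ‖N‖ ^ 2 := by
      rw [hu, norm_div, div_pow, norm_mul, norm_mul, norm_pow, Complex.norm_real,
        Complex.norm_ofNat, mul_pow, mul_pow, Real.norm_eq_abs, sq_abs]
      ring
    have h3 : (1 - x 1).re = 4 * s ^ 2 * (1 - ‖b 1‖ ^ 2 + s ^ 2 * ‖1 - b 1‖ ^ 2) / ‖N‖ ^ 2 := by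
      have e1 : 4 * (s : ℂ) ^ 2 * (1 - b 1) / N = ((4 * s ^ 2 : ℝ) : ℂ) * ((1 - b 1) / N) := by
        push_cast; ring
      rw [hu, e1, Complex.re_ofReal_mul, Complex.div_re, ← Complex.normSq_eq_norm_sq,
        ← Complex.normSq_eq_norm_sq, ← Complex.normSq_eq_norm_sq]
      have e2 : N = ((1 + s ^ 2 : ℝ) : ℂ) + ((1 - s ^ 2 : ℝ) : ℂ) * b 1 := by
        rw [hN]; push_cast; ring
      have e3 : N.re = (1 + s ^ 2) + (1 - s ^ 2) * (b 1).re := by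
        rw [e2, Complex.add_re, Complex.ofReal_re, Complex.re_ofReal_mul]
      have e4 : N.im = (1 - s ^ 2) * (b 1).im := by
        rw [e2, Complex.add_im, Complex.ofReal_im, Complex.im_ofReal_mul]
        ring
      have e5 : Complex.normSq N ≠ 0 := by
        rwa [Ne, Complex.normSq_eq_zero]
      rw [e3, e4, ← add_div, mul_div_assoc']
      congr 1
      rw [Complex.normSq_apply, Complex.normSq_apply]
      simp only [Complex.sub_re, Complex.sub_im, Complex.one_re, Complex.one_im]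
      ring
    rw [h1, h2, h3, mul_div_assoc', mul_div_assoc', ← sub_div, div_lt_div_iff_of_pos_right hNpos]
    have h4 : ‖1 - b 1‖ ≤ 2 := by
      refine (norm_sub_le _ _).trans ?_
      rw [norm_one]
      linarith
    have h5 : ‖1 - b 1‖ ^ 2 ≤ 4 := by nlinarith [norm_nonneg (1 - b 1)]
    have h6 : 0 < s ^ 2 := by positivity
    have h7 : ‖b‖ ^ 2 < 1 - 5 * s ^ 2 * ‖1 - b 1‖ ^ 2 := by nlinarith
    nlinarith
  · ext i
    by_cases hi : i = 1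
    · rw [hi, Fm_one, hD, hu]
      field_simp
      rw [hN]
      ring
    · rw [Fm_ne s x hi, hD, hxi i hi]
      field_simp
      ring

end Pool.Agent.W737.Ell
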